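import Pool.Agent.Helper80.BP.VCoreRho

/-!
# The value of an owned row of the lowest class, without any condition on long lines

`γ` is a line with the largest number of points of the class.  With `ρ` unowned rows it is
enough that the sum of `1 / τ g` over the other lines is at least `(τ γ + ρ - 1) / (2 τ γ)`,
which is `1 / 2` for `ρ = 1`.
-/

set_option autoImplicit false
set_option linter.unusedSectionVars false

namespace Pool.Agent.Helper29.RC

open Finset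

/-- The value of a row with `b` in `{a, a + 1}` rows of its owner. -/
theorem value_c2 {ι : Type} [DecidableEq ι] (W : Finset ι) (τ φ : ι → ℕ) (a b ρ : ℕ) (F : ι → ℚ)
    (ha : 1 ≤ a) (hab : a ≤ b) (hba : b ≤ a + 1) (γ : ι) (hγ : γ ∈ W)
    (hF : ∀ g ∈ W, (φ g : ℚ) / (a + 1) ≤ F g) (h1 : ∀ g ∈ W, 1 ≤ τ g)
    (ht : ∀ g ∈ W, τ g ≤ 1 + ρ + ∑ g' ∈ W, φ g') (hmax : ∀ g ∈ W, τ g ≤ τ γ)
    (hc : ((τ γ : ℚ) + ρ - 1) / (2 * τ γ) ≤ ∑ g ∈ W.erase γ, (1 : ℚ) / τ g) :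
    (1 : ℚ) / b ≤ ∑ g ∈ W, (1 / b + F g) / τ g := by
  set t := ∑ g' ∈ W, φ g' with htdef
  have haQ : (1 : ℚ) ≤ a := by exact_mod_cast ha
  have habQ : (a : ℚ) ≤ b := by exact_mod_cast hab
  have hbaQ : (b : ℚ) ≤ a + 1 := by exact_mod_cast hba
  have hb0 : (0 : ℚ) < (b : ℚ) := by linarith
  have ha1 : (0 : ℚ) < (a : ℚ) + 1 := by linarith
  have hT : (t : ℚ) = ∑ g ∈ W, (φ g : ℚ) := by rw [htdef]; push_cast; rfl
  have hτ0 : ∀ g ∈ W, (0 : ℚ) < τ g := fun g hg => by exact_mod_cast h1 g hg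
  set n : ℚ := (τ γ : ℚ) with hn
  have hn1 : 1 ≤ n := by rw [hn]; exact_mod_cast h1 γ hγ
  have hn0 : 0 < n := by linarith
  have ht0 : (0 : ℚ) ≤ t := by positivity
  have hρ0 : (0 : ℚ) ≤ (ρ : ℚ) := by positivity
  have hnt : n ≤ 1 + ρ + t := by rw [hn]; exact_mod_cast ht γ hγ
  -- split the value
  have e1 : 1 / (b : ℚ) * (∑ g ∈ W, (1 : ℚ) / τ g) + (t : ℚ) / (a + 1) / n ≤
      ∑ g ∈ W, (1 / b + F g) / τ g := by
    have e2 : 1 / (b : ℚ) * (∑ g ∈ W, (1 : ℚ) / τ g) + (t : ℚ) / (a + 1) / n =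
        ∑ g ∈ W, (1 / (b : ℚ) * (1 / τ g) + (φ g : ℚ) / (a + 1) / n) := by
      rw [Finset.sum_add_distrib, ← Finset.mul_sum, ← Finset.sum_div, ← Finset.sum_div, ← hT]
    rw [e2]
    apply Finset.sum_le_sum
    intro g hg
    have k1 : (φ g : ℚ) / (a + 1) / n ≤ F g / τ g := by
      have k2 : (0 : ℚ) ≤ (φ g : ℚ) / (a + 1) := by positivity
      exact (div_le_div_of_nonneg_left k2 (hτ0 g hg)
        (by rw [hn]; exact_mod_cast hmax g hg)).trans
          (div_le_div_of_nonneg_right (hF g hg) (hτ0 g hg).le)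
    have k3 : (1 / (b : ℚ) + F g) / τ g = 1 / (b : ℚ) * (1 / τ g) + F g / τ g := by
      rw [add_div]; ring
    rw [k3]
    linarith
  refine le_trans ?_ e1
  rw [← Finset.add_sum_erase W _ hγ]
  set Sm := ∑ g ∈ W.erase γ, (1 : ℚ) / τ g with hSm
  -- multiply by `b`
  have key : 1 ≤ (1 / n + Sm) + (b : ℚ) * ((t : ℚ) / (a + 1) / n) := by
    have hbt : (1 : ℚ) / 2 ≤ b / (a + 1) := by
      rw [div_le_div_iff₀ (by norm_num) ha1]
      linarith
    have k0 : (1 : ℚ) / 2 * (t / n) ≤ (b : ℚ) * ((t : ℚ) / (a + 1) / n) := by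
      have : (b : ℚ) * ((t : ℚ) / (a + 1) / n) = b / (a + 1) * (t / n) := by
        field_simp
      rw [this]
      exact mul_le_mul_of_nonneg_right hbt (by positivity)
    have k1 : (n - 1 - ρ) / n ≤ t / n := div_le_div_of_nonneg_right (by linarith) hn0.le
    have k2 : (1 : ℚ) / n + (n + ρ - 1) / (2 * n) + 1 / 2 * ((n - 1 - ρ) / n) = 1 := by
      field_simp
      ring
    linarith
  have h9 : 1 / (b : ℚ) * (1 / n + Sm) + (t : ℚ) / (a + 1) / n =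
      1 / b * ((1 / n + Sm) + (b : ℚ) * ((t : ℚ) / (a + 1) / n)) := by
    rw [mul_add (1 / (b : ℚ)) (1 / n + Sm), ← mul_assoc (1 / (b : ℚ)) (b : ℚ),
      one_div_mul_cancel hb0.ne', one_mul]
  rw [h9]
  calc (1 : ℚ) / b = 1 / b * 1 := by ring
    _ ≤ _ := mul_le_mul_of_nonneg_left key (by positivity)

/-- Exchange of the omitted line. -/
theorem erase_sum_le {ι : Type} [DecidableEq ι] (W : Finset ι) (τ l : ι → ℕ)
    (h1 : ∀ g ∈ W, 1 ≤ τ g) (hl : ∀ g ∈ W, τ g ≤ l g) {γ δ : ι} (hγ : γ ∈ W) (hδ : δ ∈ W)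
    (hmax : ∀ g ∈ W, τ g ≤ τ γ) :
    ∑ g ∈ W.erase δ, (1 : ℚ) / l g ≤ ∑ g ∈ W.erase γ, (1 : ℚ) / τ g := by
  have hτ0 : ∀ g ∈ W, (0 : ℚ) < τ g := fun g hg => by exact_mod_cast h1 g hg
  have hle : ∀ g ∈ W, (1 : ℚ) / l g ≤ 1 / τ g := fun g hg =>
    one_div_le_one_div_of_le (hτ0 g hg) (by exact_mod_cast hl g hg)
  by_cases h : γ = δ
  · subst h
    exact Finset.sum_le_sum fun g hg => hle g (Finset.mem_of_mem_erase hg)
  · have hγ' : γ ∈ W.erase δ := Finset.mem_erase.mpr ⟨h, hγ⟩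
    have hδ' : δ ∈ W.erase γ := Finset.mem_erase.mpr ⟨Ne.symm h, hδ⟩
    rw [← Finset.add_sum_erase _ _ hγ', ← Finset.add_sum_erase _ _ hδ',
      Finset.erase_right_comm]
    apply add_le_add
    · apply one_div_le_one_div_of_le (hτ0 δ hδ)
      have := hmax δ hδ
      have := hl γ hγ
      exact_mod_cast (by omega : τ δ ≤ l γ)
    · exact Finset.sum_le_sum fun g hg =>
        hle g (Finset.mem_of_mem_erase (Finset.mem_of_mem_erase hg))

open Pool.Agent.Helper28.BPack Pool.Agent.Helper61.Motz Pool.Agent.Helper38.Thick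
open Pool.Agent.Helper80.BP

variable {L : Type} [Lattice L] [BoundedOrder L] [Finite L] [IsUpperModularLattice L]
  [DecidableEq L] [DecidableRel (α := L) (· ≤ ·)]
  {A N : Finset L} {u : L} {own : L → Finset L} {cls : L → ℕ}

/-- A core owner, `Z` the unowned rows of its plane which meet the class, `γ` a line with the
largest number of points of the class. -/
theorem val_c2 (S : SC A N u own cls) {x c H : L} (P : Pl A u x c H) (hxN : x ∈ N)
    (hcx : c ∈ own x) (ha1 : ∀ y ∈ N, y ≤ H → cls x ≤ cls y) (Z : Finset L)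
    (hown : ∀ y ∈ N, y ≤ H → ¬ y ≤ x ⊔ c → cls y = cls x →
      (∃ v ∈ N, c ∈ own v ∧ v ⊔ c = y ⊔ c) ∨ y ⊔ c ∈ Z)
    (γ : L) (hγ : γ ∈ pen A x (x ⊔ c) H)
    (hmax : ∀ g ∈ pen A x (x ⊔ c) H, (TT N cls g).card ≤ (TT N cls γ).card)
    (hc : (((TT N cls γ).card : ℚ) + Z.card - 1) / (2 * (TT N cls γ).card) ≤
      ∑ g ∈ (pen A x (x ⊔ c) H).erase γ, (1 : ℚ) / (TT N cls g).card) :
    (1 : ℚ) / (own x).card ≤ ∑ g ∈ pen A x (x ⊔ c) H, sig N own cls c g := by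
  obtain ⟨h1, h2⟩ := core_sum_rho S P hxN hcx ha1 Z hown
  rw [h2]
  exact value_c2 _ (fun g => (TT N cls g).card)
    (fun g => ((EE N own cls x c H (cls x)).filter (· ≤ g)).card) (cls x) (own x).card Z.card
    (FF N own cls x c H (cls x)) (S.cls1 x hxN) (S.lo x hxN) (S.hi x hxN) γ hγ
    (fun g _ => FF_ge S g) (fun g hg => (h1 g hg).1) (fun g hg => (h1 g hg).2) hmax hc

/-- **C2.**  A core owner with at most one unowned row of the class in its plane: it is enough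
that the lines of the plane through `x` off the row and other than one line `δ` have
`∑ 1 / |g| ≥ 1 / 2`. -/
theorem val_c2_one (S : SC A N u own cls) {x c H : L} (P : Pl A u x c H) (hxN : x ∈ N)
    (hcx : c ∈ own x) (ha1 : ∀ y ∈ N, y ≤ H → cls x ≤ cls y) (Z : Finset L)
    (hown : ∀ y ∈ N, y ≤ H → ¬ y ≤ x ⊔ c → cls y = cls x →
      (∃ v ∈ N, c ∈ own v ∧ v ⊔ c = y ⊔ c) ∨ y ⊔ c ∈ Z) (hZ : Z.card ≤ 1)
    (δ : L) (hδ : δ ∈ pen A x (x ⊔ c) H)
    (hc : (1 : ℚ) / 2 ≤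
      ∑ g ∈ (pen A x (x ⊔ c) H).erase δ, (1 : ℚ) / (A.filter (· ≤ g)).card) :
    (1 : ℚ) / (own x).card ≤ ∑ g ∈ pen A x (x ⊔ c) H, sig N own cls c g := by
  obtain ⟨h1, -⟩ := core_sum_rho S P hxN hcx ha1 Z hown
  obtain ⟨γ, hγ, hmax⟩ := Finset.exists_max_image (pen A x (x ⊔ c) H)
    (fun g => (TT N cls g).card) ⟨δ, hδ⟩
  refine val_c2 S P hxN hcx ha1 Z hown γ hγ hmax ?_
  have h3 := erase_sum_le (pen A x (x ⊔ c) H) (fun g => (TT N cls g).card)
    (fun g => (A.filter (· ≤ g)).card) (fun g hg => (h1 g hg).1)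
    (fun g _ => card_TT_le S g) hγ hδ hmax
  refine le_trans ?_ (hc.trans h3)
  have hn0 : (0 : ℚ) < (TT N cls γ).card := by exact_mod_cast (h1 γ hγ).1
  have hZQ : (Z.card : ℚ) ≤ 1 := by exact_mod_cast hZ
  rw [div_le_div_iff₀ (by positivity) (by norm_num)]
  linarith

end Pool.Agent.Helper29.RC
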