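import Pool.Agent.Helper29.RC.Single
import Pool.Agent.Helper29.RC.ValC2
import Pool.Agent.Helper38.SC.Own
import Pool.Agent.Helper56.BP.Level1K

/-!
# Rank four data when all rows over a longest line are long
-/

set_option autoImplicit false
set_option linter.unusedSectionVars false

namespace Pool.Agent.Helper29.RC

open Pool.Agent.Helper28.BPack Pool.Agent.Helper61.Motz Pool.Agent.Helper28.Level2
  Pool.Agent.Helper80.BP Pool.Agent.Helper38.Thick

variable {L : Type} [Lattice L] [BoundedOrder L] [Finite L] [IsUpperModularLattice L]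
  [DecidableEq L] [DecidableRel (α := L) (· ≤ ·)]

/-- The zero rows: rows in the excluded plane of their colour. -/
def ZF (A : Finset L) (u : L) (y z : L → L) (k : L) : Prop :=
  ∃ c ∈ A, c ≤ u ∧ c ≤ k ∧ k ≤ c ⊔ y c ⊔ z c

/-- Two points of `u` on a row. -/
theorem colour_uniq {A : Finset L} {u : L} (hA : ∀ a ∈ A, IsAtom a) (hu : rk u = 2) {x c c' : L}
    (hx : x ∈ A) (hxu : ¬ x ≤ u) (hc : c ∈ A) (hcu : c ≤ u) (hc' : c' ∈ A) (hcu' : c' ≤ u)
    (h : c' ≤ x ⊔ c) : c' = c := by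
  by_contra hne
  have hk : rk (x ⊔ c) = 2 := by
    rw [sup_comm]
    exact rk_cy hu (hA c hc) hcu (hA x hx) hxu
  have h1 : c' ⊔ c = x ⊔ c := line_eq (hA _ hc') (hA _ hc) hne h le_sup_right hk
  have h2 : x ≤ c' ⊔ c := h1 ▸ le_sup_left
  exact hxu (h2.trans (sup_le hcu' hcu))

theorem ZF_iff {A : Finset L} {u : L} (hA : ∀ a ∈ A, IsAtom a) (hu : rk u = 2) {y z : L → L}
    {x c : L} (hx : x ∈ A) (hxu : ¬ x ≤ u) (hc : c ∈ A) (hcu : c ≤ u) :
    ZF A u y z (x ⊔ c) ↔ x ≤ c ⊔ y c ⊔ z c := by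
  constructor
  · rintro ⟨c', hc', hcu', h1, h2⟩
    have e := colour_uniq hA hu hx hxu hc hcu hc' hcu' h1
    rw [e] at h2
    exact le_sup_left.trans h2
  · intro h
    exact ⟨c, hc, hcu, le_sup_right, sup_le h (le_sup_left.trans le_sup_left)⟩

/-- Assembly. -/
theorem crit4_aux {A : Finset L} {u b1 b2 r1 r2 : L} {y z m : L → L}
    (hA : ∀ a ∈ A, IsAtom a) (hrA : rk (A.sup id) = 4) (hu : rk u = 2)
    (hb1 : b1 ∈ A) (hb1u : b1 ≤ u) (hb2 : b2 ∈ A) (hb2u : b2 ≤ u) (hb12 : b1 ≠ b2)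
    (hmax : ∀ k, rk k = 2 → (A.filter (· ≤ k)).card ≤ (A.filter (· ≤ u)).card)
    (hbig : ∀ x ∈ A, ¬ x ≤ u → ∀ c ∈ A, c ≤ u →
      (A.filter (· ≤ u)).card + 4 ≤ 2 * (A.filter (· ≤ x ⊔ c)).card)
    (hr1 : r1 ∈ A) (hr2 : r2 ∈ A) (h4 : rk (u ⊔ r1 ⊔ r2) = 4)
    (hyb : ∀ b, b = b1 ∨ b = b2 → y b = r1 ∧ z b = r2)
    (hyz : ∀ c, y c ∈ A ∧ z c ∈ A ∧ rk (u ⊔ y c ⊔ z c) = 4 ∧
        (Cr A u c (y c) ∨ Cr A u c (z c) ∨ ∀ w ∈ A, ¬ w ≤ u → ¬ Cr A u c w))
    (hm : ∀ x ∈ A.filter (fun x => ¬ x ≤ u ∧ ¬ x ≤ r1 ⊔ r2),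
      m x ∈ A ∧ m x ≤ u ∧ ¬ ZF A u y z (x ⊔ m x))
    (hminj : ∀ x ∈ A.filter (fun x => ¬ x ≤ u ∧ ¬ x ≤ r1 ⊔ r2),
      ∀ x' ∈ A.filter (fun x => ¬ x ≤ u ∧ ¬ x ≤ r1 ⊔ r2), x ⊔ m x = x' ⊔ m x' → x = x') :
    Crit4 A := by
  classical
  set R : Finset L := A.filter (fun x => ¬ x ≤ u ∧ ¬ x ≤ r1 ⊔ r2) with hRdef
  have hmR : ∀ x, x ∈ R ↔ x ∈ A ∧ ¬ x ≤ u ∧ ¬ x ≤ r1 ⊔ r2 := fun x => by simp [hRdef]
  -- a pair spanning with `u`
  have hpair : ∀ a b, rk (u ⊔ a ⊔ b) = 4 → a ∈ A → b ∈ A → ¬ a ≤ u ∧ ¬ b ≤ a ⊔ u ∧ ¬ b ≤ u ∧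
      a ≠ b := by
    intro a b h ha hb
    have hau : ¬ a ≤ u := by
      intro h1
      have h2 := rk_sup_atom_le (x := u) (hA b hb)
      rw [sup_eq_left.mpr h1] at h
      omega
    have hbau : ¬ b ≤ a ⊔ u := by
      intro h1
      rw [sup_comm u a, sup_eq_left.mpr h1, rk_uy hu (hA a ha) hau] at h
      omega
    refine ⟨hau, hbau, fun h1 => hbau (h1.trans le_sup_right), ?_⟩
    rintro rfl
    exact hbau le_sup_left
  obtain ⟨hr1u, hr2r1, hr2u, hr12⟩ := hpair r1 r2 h4 hr1 hr2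
  have hv : rk (r1 ⊔ r2) = 2 := rk_line (hA r1 hr1) (hA r2 hr2) hr12
  have huv : rk (u ⊔ (r1 ⊔ r2)) = 4 := by rw [← sup_assoc]; exact h4
  -- the excluded planes
  have hKHP : ∀ c ∈ A, c ≤ u → c ⊔ y c ⊔ z c ∈ HP A u c := by
    intro c hc hcu
    obtain ⟨k1, k2, k3, -⟩ := hyz c
    obtain ⟨k4, k5, k6, k7⟩ := hpair _ _ k3 k1 k2
    obtain ⟨k8, k9⟩ := rk_cyx hu (hA c hc) hcu (hA _ k1) k4 (hA _ k2) k5
    exact mem_HP.mpr ⟨k8, le_sup_left.trans le_sup_left, k9, y c, k1, z c, k2, rfl⟩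
  -- level 2
  have hl2 : ∀ c, c ∈ A ∧ c ≤ u → ∃ HR : L → L, (∀ x ∈ A, ¬ x ≤ u → ¬ x ≤ c ⊔ y c ⊔ z c →
        rk (HR x) = 3 ∧ x ⊔ c ≤ HR x ∧ ¬ u ≤ HR x ∧ HR x ≠ c ⊔ y c ⊔ z c ∧
        ∃ w ∈ A, w ≤ HR x ∧ ¬ w ≤ x ⊔ c) ∧
      (∀ x ∈ A, ¬ x ≤ u → ¬ x ≤ c ⊔ y c ⊔ z c → ∀ x' ∈ A, ¬ x' ≤ u →
        ¬ x' ≤ c ⊔ y c ⊔ z c → HR x = HR x' → x ⊔ c = x' ⊔ c) ∧
      (∀ x x', x ⊔ c = x' ⊔ c → HR x = HR x') := by
    rintro c ⟨hc, hcu⟩
    obtain ⟨k1, k2, k3, k10⟩ := hyz c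
    obtain ⟨k4, k5, k6, k7⟩ := hpair _ _ k3 k1 k2
    rcases k10 with h | h | h
    · exact level2F hA hrA hu hc hcu (hKHP c hc hcu) k1 k4 (le_sup_right.trans le_sup_left)
        (Or.inl h)
    · exact level2F hA hrA hu hc hcu (hKHP c hc hcu) k2 k6 le_sup_right (Or.inl h)
    · exact level2F hA hrA hu hc hcu (hKHP c hc hcu) k1 k4 (le_sup_right.trans le_sup_left)
        (Or.inr h)
  choose! HH hHH hHHinj hHHc using hl2
  -- ownership
  obtain ⟨own, cls, S, hown, hall⟩ := Pool.Agent.Helper56.BP.alloc_rows (A := A) (R := R)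
    (ZF A u y z) hA hu (fun x hx => ⟨((hmR x).mp hx).1, ((hmR x).mp hx).2.1⟩) hm hminj
  have hcls : ∀ x ∈ R, cls x = 1 := single_class S hv huv hmR hbig
  -- reading of the nonzero rows
  have hnz : ∀ x ∈ R, ∀ c ∈ own x, ¬ x ≤ c ⊔ y c ⊔ z c := by
    intro x hx c hc h
    obtain ⟨h1, h2, h3⟩ := (hmR x).mp hx
    obtain ⟨h5, h6⟩ := S.ownA x hx c hc
    exact hown x hx c hc ((ZF_iff hA hu h1 h2 h5 h6).mpr h)
  have hmem : ∀ x ∈ A, ¬ x ≤ u → x ∉ A.filter (· ≤ r1 ⊔ r2) → x ∈ R := by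
    intro x h1 h2 h3
    refine (hmR x).mpr ⟨h1, h2, fun h => h3 (Finset.mem_filter.mpr ⟨h1, h⟩)⟩
  have hKb : ∀ b, b = b1 ∨ b = b2 → b ⊔ y b ⊔ z b = b ⊔ (r1 ⊔ r2) := by
    intro b hb
    rw [(hyb b hb).1, (hyb b hb).2, sup_assoc]
  refine Pool.Agent.Helper38.SC.crit4_of_own (A := A) (Rp := A.filter (· ≤ r1 ⊔ r2)) (u := u)
    (b1 := b1) (b2 := b2) (r1 := r1) (r2 := r2)
    (c := fun q => if q ≤ u then y q else b1) (d := fun q => if q ≤ u then z q else b2)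
    (C := own) (HH := HH) (Ls := fun x a => pen A x (x ⊔ a) (HH a x))
    (σ := fun a g => sig R own cls a g) hA hu hb1 hb2
    (line_eq (hA _ hb1) (hA _ hb2) hb12 hb1u hb2u hu)
    (Finset.mem_filter.mpr ⟨hr1, le_sup_left⟩) (Finset.mem_filter.mpr ⟨hr2, le_sup_right⟩) h4
    ?_ ?_ ?_ ?_ ?_ ?_ ?_ ?_ ?_ ?_ ?_ ?_ ?_ ?_ ?_ ?_
  · -- representatives
    intro x hx
    rw [Finset.mem_filter] at hx
    refine ⟨hx.1, fun hxu => ?_⟩
    -- `x` on `u` and on `v`
    have h1 : ∃ r ∈ A, r ≤ r1 ⊔ r2 ∧ x ≠ r ∧ rk (u ⊔ r) ≤ 3 := by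
      by_cases h : x = r1
      · refine ⟨r2, hr2, le_sup_right, h ▸ hr12, ?_⟩
        have := rk_sup_atom_le (x := u) (hA r2 hr2)
        omega
      · refine ⟨r1, hr1, le_sup_left, h, ?_⟩
        have := rk_sup_atom_le (x := u) (hA r1 hr1)
        omega
    obtain ⟨r, hr, hrv, hne, hrk⟩ := h1
    have h2 : x ⊔ r = r1 ⊔ r2 := line_eq (hA x hx.1) (hA r hr) hne hx.2 hrv hv
    rw [← h2, ← sup_assoc, sup_eq_left.mpr hxu] at huv
    omega
  · -- representatives are in different groups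
    intro x hx x' hx' h
    rw [Finset.mem_filter] at hx hx'
    by_contra hne
    have hxu : ¬ x ≤ u := by
      intro hxu
      have h2 : x' ≤ u := h.trans (sup_le hxu le_rfl)
      have h3 : x ⊔ x' = r1 ⊔ r2 := line_eq (hA x hx.1) (hA x' hx'.1) hne hx.2 hx'.2 hv
      rw [← h3, sup_eq_left.mpr (sup_le hxu h2), hu] at huv
      omega
    have h3 : x ⊔ x' = r1 ⊔ r2 := line_eq (hA x hx.1) (hA x' hx'.1) hne hx.2 hx'.2 hv
    have h5 : u ⊔ (r1 ⊔ r2) ≤ x ⊔ u := by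
      rw [← h3]
      exact sup_le le_sup_right (sup_le le_sup_left h)
    have h6 := rk_mono h5
    rw [huv, rk_uy hu (hA x hx.1) hxu] at h6
    omega
  · -- hI
    intro q hq hqu _ _
    simp only [if_pos hqu]
    exact ⟨(hyz q).1, (hyz q).2.1, (hyz q).2.2.1⟩
  · -- hII
    intro q hq n1 n2
    rw [Finset.mem_filter] at hq
    have hqu : ¬ q ≤ u := by
      intro hqu
      have h2 : q ⊔ r1 = r1 ⊔ r2 := line_eq (hA q hq.1) (hA r1 hr1) n1 hq.2 le_sup_left hv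
      rw [← h2, ← sup_assoc, sup_eq_left.mpr hqu] at huv
      have := rk_sup_atom_le (x := u) (hA r1 hr1)
      omega
    simp only [if_neg hqu]
    exact ⟨hb1, hb1u, hb2, hb2u, hb12⟩
  · -- h12
    intro q hq hqu n1 n2 s hs m1 m2 h
    rw [Finset.mem_filter] at hs
    have hsu : ¬ s ≤ u := by
      intro hsu
      have h2 : s ⊔ r1 = r1 ⊔ r2 := line_eq (hA s hs.1) (hA r1 hr1) m1 hs.2 le_sup_left hv
      rw [← h2, ← sup_assoc, sup_eq_left.mpr hsu] at huv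
      have := rk_sup_atom_le (x := u) (hA r1 hr1)
      omega
    simp only [if_neg hsu] at h
    rcases h with h | h
    · exact absurd h.symm n1
    · exact absurd h.symm n2
  · -- hC
    intro x h1 h2 h3 a ha
    have hx := hmem x h1 h2 h3
    obtain ⟨h5, h6⟩ := S.ownA x hx a ha
    obtain ⟨k1, k2, k3, k4, k5⟩ := hHH a ⟨h5, h6⟩ x h1 h2 (hnz x hx a ha)
    exact ⟨h5, h6, k1, k2, k3⟩
  · -- hrow
    intro a x h1 h2 h3 ha x' h1' h2' h3' ha' e
    exact S.uniq x (hmem x h1 h2 h3) x' (hmem x' h1' h2' h3') a ha ha' e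
  · -- h13
    intro q hq hqu n1 n2 x h1 h2 h3 hqx
    simp only [if_pos hqu]
    have hx := hmem x h1 h2 h3
    have h5 := hnz x hx q hqx
    refine ⟨fun h => h5 (h.trans le_sup_left), fun h => h5 (h.trans ?_), ?_⟩
    · exact sup_le (le_sup_left.trans le_sup_left) le_sup_right
    · exact (hHH q ⟨hq, hqu⟩ x h1 h2 h5).2.2.2.1
  · -- h23
    intro s hs m1 m2 x h1 h2 h3
    rw [Finset.mem_filter] at hs
    have hsu : ¬ s ≤ u := by
      intro hsu
      have h2 : s ⊔ r1 = r1 ⊔ r2 := line_eq (hA s hs.1) (hA r1 hr1) m1 hs.2 le_sup_left hv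
      rw [← h2, ← sup_assoc, sup_eq_left.mpr hsu] at huv
      have := rk_sup_atom_le (x := u) (hA r1 hr1)
      omega
    simp only [if_neg hsu]
    have hx := hmem x h1 h2 h3
    have key : ∀ b, b = b1 ∨ b = b2 → b ∈ own x → ¬ s ≤ x ⊔ b := by
      intro b hb hbo hsx
      obtain ⟨h5, h6⟩ := S.ownA x hx b hbo
      have e := row_eq hA hu h5 h6 hs.1 hsu h1 h2 hsx
      apply hnz x hx b hbo
      rw [hKb b hb]
      have h7 : x ≤ s ⊔ b := e ▸ le_sup_left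
      exact h7.trans (sup_le (hs.2.trans le_sup_right) le_sup_left)
    exact ⟨key b1 (Or.inl rfl), key b2 (Or.inr rfl)⟩
  · -- h03
    intro x h1 h2 h3 b hb hbo
    have hx := hmem x h1 h2 h3
    obtain ⟨h5, h6⟩ := S.ownA x hx b hbo
    have h7 := hnz x hx b hbo
    have key : ∀ r ∈ A, ¬ r ≤ u → r ≤ r1 ⊔ r2 → ¬ r ≤ x ⊔ b := by
      intro r hr hru hrv hrx
      have e := row_eq hA hu h5 h6 hr hru h1 h2 hrx
      apply h7
      rw [hKb b hb]
      have h7 : x ≤ r ⊔ b := e ▸ le_sup_left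
      exact h7.trans (sup_le (hrv.trans le_sup_right) le_sup_left)
    refine ⟨key r1 hr1 hr1u le_sup_left, key r2 hr2 hr2u le_sup_right, ?_⟩
    rw [← hKb b hb]
    exact (hHH b ⟨h5, h6⟩ x h1 h2 h7).2.2.2.1
  · -- hinj
    intro a x h1 h2 h3 ha x' h1' h2' h3' ha' e
    have hx := hmem x h1 h2 h3
    have hx' := hmem x' h1' h2' h3'
    exact hHHinj a (S.ownA x hx a ha) x h1 h2 (hnz x hx a ha) x' h1' h2' (hnz x' hx' a ha') e
  · -- hLs
    intro x h1 h2 h3 a ha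
    exact Finset.Subset.refl _
  · -- hLv
    intro x h1 h2 h3 a ha h
    have hx := hmem x h1 h2 h3
    obtain ⟨w, hw, hwH, hwk, e⟩ := mem_pen.mp h
    have h5 : x ≤ r1 ⊔ r2 := e ▸ le_sup_left
    exact ((hmR x).mp hx).2.2 h5
  · exact fun a g => sig_nonneg R own cls a g
  · exact fun g _ => sig_sum_le S g
  · -- the value
    intro x h1 h2 h3
    have hx := hmem x h1 h2 h3
    have hpos : (0 : ℚ) < (own x).card := by
      have h5 := S.lo x hx
      have h6 := S.cls1 x hx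
      exact_mod_cast (by omega : 0 < (own x).card)
    have key : ∀ c ∈ own x, (1 : ℚ) / (own x).card ≤
        ∑ g ∈ pen A x (x ⊔ c) (HH c x), sig R own cls c g := by
      intro c hc
      obtain ⟨hcA, hcu⟩ := S.ownA x hx c hc
      obtain ⟨k1, k2, k3, k4, w, hw, hwH, hwk⟩ := hHH c ⟨hcA, hcu⟩ x h1 h2 (hnz x hx c hc)
      have hcH : c ≤ HH c x := le_sup_right.trans k2
      have P : Pl A u x c (HH c x) := ⟨h1, h2, hcA, hcu, k1, k2⟩
      have hwu : ¬ w ≤ u := by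
        intro h
        have hne : w ≠ c := fun e => hwk (e ▸ le_sup_right)
        have h5 : w ⊔ c = u := line_eq (hA w hw) (hA c hcA) hne h hcu hu
        exact k3 (h5 ▸ sup_le hwH hcH)
      have hKK := mem_HP.mp (hKHP c hcA hcu)
      -- the unowned rows of `H`
      set Z : Finset L := ((A.filter (fun t => ¬ t ≤ u ∧ t ≤ HH c x ∧ t ≤ c ⊔ y c ⊔ z c)).image
        (fun t => t ⊔ c)) with hZ
      have hZ1 : Z.card ≤ 1 := by
        rw [Finset.card_le_one]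
        intro k hk k' hk'
        obtain ⟨t, ht, rfl⟩ := Finset.mem_image.mp hk
        obtain ⟨t', ht', rfl⟩ := Finset.mem_image.mp hk'
        rw [Finset.mem_filter] at ht ht'
        obtain ⟨htA, htu, htH, htK⟩ := ht
        obtain ⟨htA', htu', htH', htK'⟩ := ht'
        by_contra hne
        have hn : ¬ t' ≤ c ⊔ t := by
          intro h
          exact hne (row_eq hA hu hcA hcu htA' htu' htA htu (by rwa [sup_comm c t] at h)).symm
        have hr3 : rk (c ⊔ t ⊔ t') = 3 := by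
          rw [rk_sup_atom (hA t' htA') hn, rk_cy hu (hA c hcA) hcu (hA t htA) htu]
        have e1 : c ⊔ t ⊔ t' = HH c x := eq_of_le_of_rk (sup_le (sup_le hcH htH) htH')
          (by rw [hr3, k1])
        have e2 : c ⊔ t ⊔ t' = c ⊔ y c ⊔ z c := eq_of_le_of_rk
          (sup_le (sup_le hKK.2.1 htK) htK') (by rw [hr3, hKK.1])
        exact k4 (e1.symm.trans e2)
      -- the lines of `H` through `x`
      have hwrow := hbig w hw hwu c hcA hcu
      have hxc := P.xc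
      have hlines : (A.filter (· ≤ w ⊔ c)).card ≤
          (pen A x (x ⊔ c) (HH c x)).card + 1 := by
        have h5 : ((A.filter (· ≤ w ⊔ c)).erase c).card ≤
            (pen A x (x ⊔ c) (HH c x)).card := by
          have hoff : ∀ t ∈ A, t ≠ c → t ≤ w ⊔ c → ¬ t ≤ x ⊔ c := by
            intro t ht htc htw h
            have hrx : rk (x ⊔ c) = 2 := by
              rw [sup_comm]; exact rk_cy hu (hA c hcA) hcu (hA x h1) h2
            have hrw : rk (w ⊔ c) = 2 := by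
              rw [sup_comm]; exact rk_cy hu (hA c hcA) hcu (hA w hw) hwu
            have e1 : t ⊔ c = x ⊔ c := line_eq (hA t ht) (hA c hcA) htc h le_sup_right hrx
            have e2 : t ⊔ c = w ⊔ c := line_eq (hA t ht) (hA c hcA) htc htw le_sup_right hrw
            exact hwk (by rw [← e1, e2]; exact le_sup_left)
          apply Finset.card_le_card_of_injOn (fun t => x ⊔ t)
          · intro t ht
            rw [Finset.mem_coe, Finset.mem_erase, Finset.mem_filter] at ht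
            exact line_mem ht.2.1 (ht.2.2.trans (sup_le hwH hcH)) (hoff t ht.2.1 ht.1 ht.2.2)
          · intro t ht t' ht' e
            rw [Finset.mem_coe, Finset.mem_erase, Finset.mem_filter] at ht ht'
            by_contra hne
            have e' : x ⊔ t = x ⊔ t' := e
            have hxt : x ≠ t := fun h => hoff t ht.2.1 ht.1 ht.2.2 (h ▸ le_sup_left)
            have hr : rk (x ⊔ t) = 2 := rk_line (hA x h1) (hA t ht.2.1) hxt
            have hrw : rk (w ⊔ c) = 2 := by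
              rw [sup_comm]; exact rk_cy hu (hA c hcA) hcu (hA w hw) hwu
            have e1 : t ⊔ t' = x ⊔ t := line_eq (hA t ht.2.1) (hA t' ht'.2.1) hne le_sup_right
              (e' ▸ le_sup_right) hr
            have e2 : t ⊔ t' = w ⊔ c := line_eq (hA t ht.2.1) (hA t' ht'.2.1) hne ht.2.2
              ht'.2.2 hrw
            have e3 : x ≤ w ⊔ c := by rw [← e2, e1]; exact le_sup_left
            exact hoff x h1 hxc e3 le_sup_left
        have h6 : ((A.filter (· ≤ w ⊔ c)).erase c).card = (A.filter (· ≤ w ⊔ c)).card - 1 :=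
          Finset.card_erase_of_mem (Finset.mem_filter.mpr ⟨hcA, le_sup_right⟩)
        omega
      have hδ : x ⊔ w ∈ pen A x (x ⊔ c) (HH c x) := line_mem hw hwH hwk
      refine val_c2_one S P hx hc (fun t ht _ => by rw [hcls x hx, hcls t ht]) Z ?_ hZ1
        (x ⊔ w) hδ ?_
      · intro t ht htH htk _
        obtain ⟨t1, t2, t3⟩ := (hmR t).mp ht
        by_cases hz : t ≤ c ⊔ y c ⊔ z c
        · right
          exact Finset.mem_image.mpr ⟨t, Finset.mem_filter.mpr ⟨t1, t2, htH, hz⟩, rfl⟩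
        · left
          obtain ⟨t', ht', g1, g2, g3⟩ := hall t ht c hcA hcu
            (fun h => hz ((ZF_iff hA hu t1 t2 hcA hcu).mp h))
          exact ⟨t', ht', g1, g2⟩
      · -- the sum
        have hs0 : (0 : ℚ) < ((A.filter (· ≤ u)).card : ℚ) := by
          have : 0 < (A.filter (· ≤ u)).card := Finset.card_pos.mpr
            ⟨c, Finset.mem_filter.mpr ⟨hcA, hcu⟩⟩
          exact_mod_cast this
        have h5 : ∀ g ∈ (pen A x (x ⊔ c) (HH c x)).erase (x ⊔ w),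
            (1 : ℚ) / ((A.filter (· ≤ u)).card : ℚ) ≤ 1 / ((A.filter (· ≤ g)).card : ℚ) := by
          intro g hg
          obtain ⟨l1, l2, l3, l4, l5⟩ := Pool.Agent.Helper38.SC.pen_spec hA h1 hcA hxc k1 k2
            (Finset.mem_of_mem_erase hg)
          have h6 : 0 < (A.filter (· ≤ g)).card := Finset.card_pos.mpr
            ⟨x, Finset.mem_filter.mpr ⟨h1, l2⟩⟩
          apply one_div_le_one_div_of_le
          · exact_mod_cast h6
          · exact_mod_cast hmax g l1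
        refine le_trans ?_ (Finset.sum_le_sum h5)
        rw [Finset.sum_const, nsmul_eq_mul, Finset.card_erase_of_mem hδ]
        have h7 : (A.filter (· ≤ u)).card ≤ 2 * ((pen A x (x ⊔ c) (HH c x)).card - 1) := by
          omega
        have h8 : ((A.filter (· ≤ u)).card : ℚ) ≤
            2 * (((pen A x (x ⊔ c) (HH c x)).card - 1 : ℕ) : ℚ) := by exact_mod_cast h7
        rw [mul_one_div, div_le_div_iff₀ (by norm_num) hs0]
        linarith
    have h5 : ∑ c ∈ own x, (1 : ℚ) / (own x).card = 1 := by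
      rw [Finset.sum_const, nsmul_eq_mul, mul_one_div_cancel hpos.ne']
    rw [← h5]
    exact Finset.sum_le_sum key

end Pool.Agent.Helper29.RC
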