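import Pool.Agent.Helper28.Level2
import Pool.Agent.Helper38.Thick.Frame

/-!
# Level two with a free excluded plane

For a colour `c` the excluded plane `K` is any plane over a row of a critical group (if there is
one); zero rows are the rows in `K`.
-/

set_option autoImplicit false
set_option linter.unusedSectionVars false

namespace Pool.Agent.Helper29.RC

open Pool.Agent.Helper28.BPack Pool.Agent.Helper61.Motz Pool.Agent.Helper28.Level2

variable {L : Type} [Lattice L] [BoundedOrder L] [Finite L] [IsUpperModularLattice L]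
  [DecidableEq L] [DecidableRel (α := L) (· ≤ ·)]

/-- The planes through `c` which do not contain `u`. -/
noncomputable def HP (A : Finset L) (u c : L) : Finset L :=
  ((A ×ˢ A).image (fun p => c ⊔ p.1 ⊔ p.2)).filter (fun H => rk H = 3 ∧ ¬ u ≤ H)

theorem mem_HP {A : Finset L} {u c H : L} :
    H ∈ HP A u c ↔ rk H = 3 ∧ c ≤ H ∧ ¬ u ≤ H ∧ ∃ y ∈ A, ∃ z ∈ A, H = c ⊔ y ⊔ z := by
  simp only [HP, Finset.mem_filter, Finset.mem_image, Finset.mem_product, Prod.exists]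
  constructor
  · rintro ⟨⟨y, z, ⟨hy, hz⟩, rfl⟩, h1, h2⟩
    exact ⟨h1, le_sup_left.trans le_sup_left, h2, y, hy, z, hz, rfl⟩
  · rintro ⟨h1, -, h2, y, hy, z, hz, rfl⟩
    exact ⟨⟨y, z, ⟨hy, hz⟩, rfl⟩, h1, h2⟩

/-- The number of planes over the row of `y`. -/
noncomputable def DD (A : Finset L) (u c y : L) : ℕ := ((HP A u c).filter (fun H => y ≤ H)).card

/-- The number of `c`-rows of the group of `y`. -/
def mm (A : Finset L) (u c y : L) : ℕ :=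
  ((A.filter (fun x => ¬ x ≤ u ∧ x ≤ y ⊔ u)).image (fun x => x ⊔ c)).card

/-- The group of `y` is critical for the colour `c`. -/
def Cr (A : Finset L) (u c y : L) : Prop :=
  ∀ z ∈ A, ¬ z ≤ u → z ≤ y ⊔ u → DD A u c z = mm A u c y

section

variable {A : Finset L} {u c : L}

theorem grp_eq (hA : ∀ a ∈ A, IsAtom a) (hu : rk u = 2) {x y : L} (hx : x ∈ A) (hxu : ¬ x ≤ u)
    (hy : y ∈ A) (hyu : ¬ y ≤ u) (h : x ≤ y ⊔ u) : x ⊔ u = y ⊔ u :=
  eq_of_le_of_rk (sup_le h le_sup_right) (by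
    rw [rk_uy hu (hA x hx) hxu, rk_uy hu (hA y hy) hyu])

theorem row_eq (hA : ∀ a ∈ A, IsAtom a) (hu : rk u = 2) (hc : c ∈ A) (hcu : c ≤ u) {x y : L}
    (hx : x ∈ A) (hxu : ¬ x ≤ u) (hy : y ∈ A) (hyu : ¬ y ≤ u) (h : x ≤ y ⊔ c) :
    x ⊔ c = y ⊔ c :=
  eq_of_le_of_rk (sup_le h le_sup_right) (by
    rw [sup_comm x c, sup_comm y c, rk_cy hu (hA c hc) hcu (hA x hx) hxu,
      rk_cy hu (hA c hc) hcu (hA y hy) hyu])

theorem Cr_congr (hA : ∀ a ∈ A, IsAtom a) (hu : rk u = 2) {x y : L} (hx : x ∈ A)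
    (hxu : ¬ x ≤ u) (hy : y ∈ A) (hyu : ¬ y ≤ u) (h : x ≤ y ⊔ u) (hcr : Cr A u c y) :
    Cr A u c x := by
  have e := grp_eq hA hu hx hxu hy hyu h
  intro z hz hzu hzx
  have h1 : mm A u c x = mm A u c y := by
    unfold mm
    rw [e]
  rw [h1]
  exact hcr z hz hzu (e ▸ hzx)

/-- The planes over the row of `y` which meet the group of `x`. -/
theorem img_card (hA : ∀ a ∈ A, IsAtom a) (hu : rk u = 2) (hc : c ∈ A) (hcu : c ≤ u) {x y : L}
    (hx : x ∈ A) (hxu : ¬ x ≤ u) (hy : y ∈ A) (hyu : ¬ y ≤ u) (hxy : ¬ x ≤ y ⊔ u) :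
    ((A.filter (fun w => ¬ w ≤ u ∧ w ≤ x ⊔ u)).image (fun w => c ⊔ y ⊔ w)) ⊆
      (HP A u c).filter (fun H => y ≤ H) ∧
    ((A.filter (fun w => ¬ w ≤ u ∧ w ≤ x ⊔ u)).image (fun w => c ⊔ y ⊔ w)).card =
      mm A u c x := by
  have hca := hA c hc
  have hya := hA y hy
  have hoff : ∀ w ∈ A, ¬ w ≤ u → w ≤ x ⊔ u → ¬ w ≤ y ⊔ u := by
    intro w hw hwu hwx h
    apply hxy
    have e1 := grp_eq hA hu hw hwu hx hxu hwx
    have e2 := grp_eq hA hu hw hwu hy hyu h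
    rw [← e2, e1]
    exact le_sup_left
  constructor
  · intro H hH
    obtain ⟨w, hw, rfl⟩ := Finset.mem_image.mp hH
    rw [Finset.mem_filter] at hw
    obtain ⟨h1, h2, h3⟩ := hw
    obtain ⟨h4, h5⟩ := rk_cyx hu hca hcu hya hyu (hA w h1) (hoff w h1 h2 h3)
    rw [Finset.mem_filter]
    exact ⟨mem_HP.mpr ⟨h4, le_sup_left.trans le_sup_left, h5, y, hy, w, h1, rfl⟩,
      le_sup_right.trans le_sup_left⟩
  · unfold mm
    apply le_antisymm
    · have h1 : (A.filter (fun w => ¬ w ≤ u ∧ w ≤ x ⊔ u)).image (fun w => c ⊔ y ⊔ w) =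
          ((A.filter (fun w => ¬ w ≤ u ∧ w ≤ x ⊔ u)).image (fun w => w ⊔ c)).image
            (fun k => y ⊔ k) := by
        rw [Finset.image_image]
        apply Finset.image_congr
        intro w _
        show c ⊔ y ⊔ w = y ⊔ (w ⊔ c)
        ac_rfl
      rw [h1]
      exact Finset.card_image_le
    · have h1 : (A.filter (fun w => ¬ w ≤ u ∧ w ≤ x ⊔ u)).image (fun w => w ⊔ c) ⊆
          ((A.filter (fun w => ¬ w ≤ u ∧ w ≤ x ⊔ u)).image (fun w => c ⊔ y ⊔ w)).image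
            (fun H => H ⊓ (x ⊔ u)) := by
        intro k hk
        obtain ⟨w, hw, rfl⟩ := Finset.mem_image.mp hk
        have hw' := hw
        rw [Finset.mem_filter] at hw
        obtain ⟨h1, h2, h3⟩ := hw
        obtain ⟨h4, h5⟩ := rk_cyx hu hca hcu hya hyu (hA w h1) (hoff w h1 h2 h3)
        refine Finset.mem_image.mpr ⟨_, Finset.mem_image.mpr ⟨w, hw', rfl⟩, ?_⟩
        show (c ⊔ y ⊔ w) ⊓ (x ⊔ u) = w ⊔ c
        symm
        have hle : w ⊔ c ≤ (c ⊔ y ⊔ w) ⊓ (x ⊔ u) :=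
          le_inf (sup_le le_sup_right (le_sup_left.trans le_sup_left))
            (sup_le h3 (hcu.trans le_sup_right))
        have hr1 : rk (w ⊔ c) = 2 := by
          rw [sup_comm, rk_cy hu hca hcu (hA w h1) h2]
        have hr2 : rk ((c ⊔ y ⊔ w) ⊓ (x ⊔ u)) ≤ 2 := by
          by_contra hcon
          have h6 : rk ((c ⊔ y ⊔ w) ⊓ (x ⊔ u)) ≤ rk (c ⊔ y ⊔ w) := rk_mono inf_le_left
          rw [h4] at h6
          have h7 : (c ⊔ y ⊔ w) ⊓ (x ⊔ u) = c ⊔ y ⊔ w := eq_of_le_of_rk inf_le_left (by omega)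
          have h8 : (c ⊔ y ⊔ w) ⊓ (x ⊔ u) = x ⊔ u := eq_of_le_of_rk inf_le_right (by
            rw [rk_uy hu (hA x hx) hxu]; omega)
          apply h5
          rw [← h7, h8]
          exact le_sup_right
        apply eq_of_le_of_rk hle
        have h9 := rk_mono hle
        omega
      exact (Finset.card_le_card h1).trans Finset.card_image_le

theorem mm_le_DD (hA : ∀ a ∈ A, IsAtom a) (hu : rk u = 2) (hc : c ∈ A) (hcu : c ≤ u) {x y : L}
    (hx : x ∈ A) (hxu : ¬ x ≤ u) (hy : y ∈ A) (hyu : ¬ y ≤ u) (hxy : ¬ x ≤ y ⊔ u) :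
    mm A u c x ≤ DD A u c y := by
  obtain ⟨h1, h2⟩ := img_card hA hu hc hcu hx hxu hy hyu hxy
  rw [← h2]
  exact Finset.card_le_card h1

theorem meets_of_le (hA : ∀ a ∈ A, IsAtom a) (hu : rk u = 2) (hc : c ∈ A) (hcu : c ≤ u)
    {x y : L} (hx : x ∈ A) (hxu : ¬ x ≤ u) (hy : y ∈ A) (hyu : ¬ y ≤ u) (hxy : ¬ x ≤ y ⊔ u)
    (hle : DD A u c y ≤ mm A u c x) {H : L} (hH : H ∈ HP A u c) (hyH : y ≤ H) :
    ∃ w ∈ A, ¬ w ≤ u ∧ w ≤ x ⊔ u ∧ w ≤ H := by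
  obtain ⟨h1, h2⟩ := img_card hA hu hc hcu hx hxu hy hyu hxy
  have h3 := Finset.eq_of_subset_of_card_le h1 (by rw [h2]; exact hle)
  have h4 : H ∈ (HP A u c).filter (fun H => y ≤ H) := Finset.mem_filter.mpr ⟨hH, hyH⟩
  rw [← h3] at h4
  obtain ⟨w, hw, rfl⟩ := Finset.mem_image.mp h4
  rw [Finset.mem_filter] at hw
  exact ⟨w, hw.1, hw.2.1, hw.2.2, le_sup_right⟩

theorem DD_pos (hA : ∀ a ∈ A, IsAtom a) (hrA : rk (A.sup id) = 4) (hu : rk u = 2) (hc : c ∈ A)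
    (hcu : c ≤ u) {x : L} (hx : x ∈ A) (hxu : ¬ x ≤ u) : 0 < DD A u c x := by
  have h5 : ∃ y ∈ A, ¬ y ≤ x ⊔ u := by
    by_contra hcon
    push Not at hcon
    have h6 : A.sup id ≤ x ⊔ u := Finset.sup_le hcon
    have h7 := rk_mono h6
    rw [hrA, rk_uy hu (hA x hx) hxu] at h7
    omega
  obtain ⟨y, hy, hyx⟩ := h5
  obtain ⟨h6, h7⟩ := rk_cyx hu (hA c hc) hcu (hA x hx) hxu (hA y hy) hyx
  unfold DD
  rw [Finset.card_pos]
  exact ⟨c ⊔ x ⊔ y, Finset.mem_filter.mpr ⟨mem_HP.mpr ⟨h6, le_sup_left.trans le_sup_left, h7,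
    x, hx, y, hy, rfl⟩, le_sup_right.trans le_sup_left⟩⟩

theorem DD_congr {x y : L} (h : x ⊔ c = y ⊔ c) : DD A u c x = DD A u c y := by
  unfold DD
  congr 1
  apply Finset.filter_congr
  intro H hH
  have hcH := (mem_HP.mp hH).2.1
  constructor
  · intro h1
    have h2 : y ⊔ c ≤ H := h ▸ sup_le h1 hcH
    exact le_sup_left.trans h2
  · intro h1
    have h2 : x ⊔ c ≤ H := h ▸ sup_le h1 hcH
    exact le_sup_left.trans h2

end

/-- The kernel lemma. -/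
theorem kernelF {A G : Finset L} {u c K y0 : L}
    (hA : ∀ a ∈ A, IsAtom a) (hrA : rk (A.sup id) = 4) (hu : rk u = 2) (hc : c ∈ A)
    (hcu : c ≤ u) (hG : ∀ x ∈ G, x ∈ A ∧ ¬ x ≤ u)
    (hinj : ∀ x ∈ G, ∀ y ∈ G, x ⊔ c = y ⊔ c → x = y)
    (hall : ∀ x ∈ A, ¬ x ≤ u → ¬ x ≤ K → ∃ g ∈ G, g ⊔ c = x ⊔ c)
    (hGK : ∀ x ∈ G, ¬ x ≤ K) (hK : K ∈ HP A u c)
    (hy0 : y0 ∈ A) (hy0u : ¬ y0 ≤ u) (hy0K : y0 ≤ K)
    (hcr : Cr A u c y0 ∨ ∀ w ∈ A, ¬ w ≤ u → ¬ Cr A u c w)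
    (f : L → ℚ) (hf : ∀ H ∈ HP A u c, H ≠ K → ∑ x ∈ G.filter (fun x => x ≤ H), f x = 0) :
    ∀ x ∈ G, f x = 0 := by
  have hca := hA c hc
  have hcK : c ≤ K := (mem_HP.mp hK).2.1
  set S : ℚ := ∑ x ∈ G, f x with hS
  set T : L → ℚ := fun y => ∑ x ∈ G.filter (fun x => x ≤ y ⊔ u), f x with hT
  -- all planes are zero planes
  have hf' : ∀ H ∈ HP A u c, ∑ x ∈ G.filter (fun x => x ≤ H), f x = 0 := by
    intro H hH
    by_cases h : H = K
    · rw [h]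
      have h1 : G.filter (fun x => x ≤ K) = ∅ := by
        rw [Finset.filter_eq_empty_iff]
        intro x hx
        exact hGK x hx
      rw [h1, Finset.sum_empty]
    · exact hf H hH h
  have key : ∀ y ∈ A, ¬ y ≤ u →
      (DD A u c y : ℚ) * ∑ x ∈ G.filter (fun x => x ≤ y ⊔ c), f x + (S - T y) = 0 := by
    intro y hy hyu
    have h1 := ident (HH := HP A u c) hA hu hca hcu hG (fun H => mem_HP) f hy hyu
    rw [Finset.sum_eq_zero (fun H hH => hf' H (Finset.mem_filter.mp hH).1)] at h1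
    exact h1.symm
  -- points of `G` on a line through `c`
  have hFx : ∀ x ∈ G, ∑ z ∈ G.filter (fun z => z ≤ x ⊔ c), f z = f x := by
    intro x hx
    have h1 : G.filter (fun z => z ≤ x ⊔ c) = {x} := by
      ext z
      rw [Finset.mem_filter, Finset.mem_singleton]
      constructor
      · rintro ⟨hz, hzx⟩
        exact hinj z hz x hx (row_eq hA hu hc hcu (hG z hz).1 (hG z hz).2 (hG x hx).1
          (hG x hx).2 hzx)
      · rintro rfl
        exact ⟨hx, le_sup_left⟩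
    rw [h1, Finset.sum_singleton]
  have hFK : ∀ y ∈ A, ¬ y ≤ u → y ≤ K → S = T y := by
    intro y hy hyu hyK
    have h1 := key y hy hyu
    have h2 : G.filter (fun x => x ≤ y ⊔ c) = ∅ := by
      rw [Finset.filter_eq_empty_iff]
      intro x hx h
      exact hGK x hx (h.trans (sup_le hyK hcK))
    rw [h2, Finset.sum_empty, mul_zero, zero_add] at h1
    linarith
  have hDpos : ∀ x ∈ G, (0 : ℚ) < (DD A u c x : ℚ) := fun x hx => by
    exact_mod_cast DD_pos hA hrA hu hc hcu (hG x hx).1 (hG x hx).2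
  have hTc : ∀ x ∈ A, ¬ x ≤ u → ∀ y ∈ A, ¬ y ≤ u → x ≤ y ⊔ u → T x = T y := by
    intro x hx hxu y hy hyu h
    have e := grp_eq hA hu hx hxu hy hyu h
    show ∑ z ∈ G.filter (fun z => z ≤ x ⊔ u), f z = ∑ z ∈ G.filter (fun z => z ≤ y ⊔ u), f z
    rw [e]
  -- groups met by `K`
  have hmet : ∀ x ∈ G, (∃ y ∈ A, ¬ y ≤ u ∧ y ≤ K ∧ x ≤ y ⊔ u) → f x = 0 := by
    rintro x hx ⟨y, hy, hyu, hyK, hxy⟩
    have h1 := key x (hG x hx).1 (hG x hx).2
    rw [hFx x hx, hTc x (hG x hx).1 (hG x hx).2 y hy hyu hxy, ← hFK y hy hyu hyK] at h1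
    have h2 : (DD A u c x : ℚ) * f x = 0 := by linarith
    exact (mul_eq_zero.mp h2).resolve_left (hDpos x hx).ne'
  have hS0 : S = 0 := by
    rw [hFK y0 hy0 hy0u hy0K]
    apply Finset.sum_eq_zero
    intro x hx
    rw [Finset.mem_filter] at hx
    exact hmet x hx.1 ⟨y0, hy0, hy0u, hy0K, hx.2⟩
  have hDf : ∀ x ∈ G, (DD A u c x : ℚ) * f x = T x := by
    intro x hx
    have h1 := key x (hG x hx).1 (hG x hx).2
    rw [hFx x hx, hS0] at h1
    linarith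
  -- the number of rows of a group which is not met by `K`
  have hcount : ∀ x ∈ G, (∀ y ∈ A, ¬ y ≤ u → y ≤ K → ¬ x ≤ y ⊔ u) →
      (G.filter (fun z => z ≤ x ⊔ u)).card = mm A u c x := by
    intro x hx hn
    unfold mm
    have h1 : (A.filter (fun z => ¬ z ≤ u ∧ z ≤ x ⊔ u)).image (fun z => z ⊔ c) =
        (G.filter (fun z => z ≤ x ⊔ u)).image (fun z => z ⊔ c) := by
      ext k
      rw [Finset.mem_image, Finset.mem_image]
      constructor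
      · rintro ⟨z, hz, rfl⟩
        rw [Finset.mem_filter] at hz
        obtain ⟨hzA, hzu, hzx⟩ := hz
        have hzK : ¬ z ≤ K := by
          intro h
          apply hn z hzA hzu h
          rw [grp_eq hA hu hzA hzu (hG x hx).1 (hG x hx).2 hzx]
          exact le_sup_left
        obtain ⟨g, hg, e⟩ := hall z hzA hzu hzK
        refine ⟨g, Finset.mem_filter.mpr ⟨hg, ?_⟩, e⟩
        have h2 : g ≤ z ⊔ c := e ▸ le_sup_left
        exact h2.trans (sup_le hzx (hcu.trans le_sup_right))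
      · rintro ⟨z, hz, rfl⟩
        rw [Finset.mem_filter] at hz
        exact ⟨z, Finset.mem_filter.mpr ⟨(hG z hz.1).1, (hG z hz.1).2, hz.2⟩, rfl⟩
    rw [h1, Finset.card_image_of_injOn]
    intro z hz z' hz' e
    rw [Finset.mem_coe, Finset.mem_filter] at hz hz'
    exact hinj z hz.1 z' hz'.1 e
  -- the sum of `1 / D` over a group with nonzero sum
  have hone : ∀ x ∈ G, f x ≠ 0 →
      ∑ z ∈ G.filter (fun z => z ≤ x ⊔ u), (1 : ℚ) / (DD A u c z : ℚ) = 1 := by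
    intro x hx hfx
    have hTx : T x ≠ 0 := by
      rw [← hDf x hx]
      exact mul_ne_zero (hDpos x hx).ne' hfx
    have h1 : T x = T x * ∑ z ∈ G.filter (fun z => z ≤ x ⊔ u), (1 : ℚ) / (DD A u c z : ℚ) := by
      rw [Finset.mul_sum]
      apply Finset.sum_congr rfl
      intro z hz
      rw [Finset.mem_filter] at hz
      have h2 := hDf z hz.1
      rw [hTc z (hG z hz.1).1 (hG z hz.1).2 x (hG x hx).1 (hG x hx).2 hz.2] at h2
      rw [← h2]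
      have h3 := (hDpos z hz.1).ne'
      field_simp
    have h4 : T x * (∑ z ∈ G.filter (fun z => z ≤ x ⊔ u), (1 : ℚ) / (DD A u c z : ℚ) - 1) = 0 := by
      rw [mul_sub, ← h1]
      ring
    have h5 := (mul_eq_zero.mp h4).resolve_left hTx
    linarith
  by_contra hcon
  push Not at hcon
  obtain ⟨x1, hx1, hf1⟩ := hcon
  have hx1A := (hG x1 hx1).1
  have hx1u := (hG x1 hx1).2
  have hn1 : ∀ y ∈ A, ¬ y ≤ u → y ≤ K → ¬ x1 ≤ y ⊔ u := fun y hy hyu hyK h =>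
    hf1 (hmet x1 hx1 ⟨y, hy, hyu, hyK, h⟩)
  -- a second group
  obtain ⟨x2, hx2, hx21, hf2⟩ : ∃ x2 ∈ G, ¬ x2 ≤ x1 ⊔ u ∧ f x2 ≠ 0 := by
    by_contra hcon
    push Not at hcon
    have h1 : S = T x1 := by
      have h2 : ∑ x ∈ G.filter (fun x => ¬ x ≤ x1 ⊔ u), f x = 0 :=
        Finset.sum_eq_zero fun x hx => by
          rw [Finset.mem_filter] at hx
          exact hcon x hx.1 hx.2
      have h3 := Finset.sum_filter_add_sum_filter_not G (fun x => x ≤ x1 ⊔ u) f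
      rw [h2, add_zero] at h3
      exact h3.symm
    have h4 := hDf x1 hx1
    rw [← h1, hS0] at h4
    exact hf1 ((mul_eq_zero.mp h4).resolve_left (hDpos x1 hx1).ne')
  have hx2A := (hG x2 hx2).1
  have hx2u := (hG x2 hx2).2
  have hx12 : ¬ x1 ≤ x2 ⊔ u := by
    intro h
    apply hx21
    rw [grp_eq hA hu hx1A hx1u hx2A hx2u h]
    exact le_sup_left
  have hn2 : ∀ y ∈ A, ¬ y ≤ u → y ≤ K → ¬ x2 ≤ y ⊔ u := fun y hy hyu hyK h =>
    hf2 (hmet x2 hx2 ⟨y, hy, hyu, hyK, h⟩)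
  -- the two groups have the same number of rows
  have hle : ∀ x ∈ G, f x ≠ 0 → (∀ y ∈ A, ¬ y ≤ u → y ≤ K → ¬ x ≤ y ⊔ u) →
      ∀ x' ∈ G, f x' ≠ 0 → ¬ x' ≤ x ⊔ u → mm A u c x' ≤ mm A u c x := by
    intro x hx hfx hn x' hx' hfx' hxx'
    have h1 := hone x hx hfx
    have hb : ∀ z ∈ G.filter (fun z => z ≤ x ⊔ u), mm A u c x' ≤ DD A u c z := by
      intro z hz
      rw [Finset.mem_filter] at hz
      apply mm_le_DD hA hu hc hcu (hG x' hx').1 (hG x' hx').2 (hG z hz.1).1 (hG z hz.1).2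
      rw [grp_eq hA hu (hG z hz.1).1 (hG z hz.1).2 (hG x hx).1 (hG x hx).2 hz.2]
      exact hxx'
    have hm' : 0 < mm A u c x' := by
      unfold mm
      rw [Finset.card_pos]
      exact ⟨x' ⊔ c, Finset.mem_image.mpr ⟨x', Finset.mem_filter.mpr ⟨(hG x' hx').1,
        (hG x' hx').2, le_sup_left⟩, rfl⟩⟩
    have hm'Q : (0 : ℚ) < (mm A u c x' : ℚ) := by exact_mod_cast hm'
    have h2 : ∑ z ∈ G.filter (fun z => z ≤ x ⊔ u), (1 : ℚ) / (DD A u c z : ℚ) ≤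
        ∑ z ∈ G.filter (fun z => z ≤ x ⊔ u), (1 : ℚ) / (mm A u c x' : ℚ) := by
      apply Finset.sum_le_sum
      intro z hz
      apply one_div_le_one_div_of_le hm'Q
      exact_mod_cast hb z hz
    rw [h1, Finset.sum_const, nsmul_eq_mul, hcount x hx hn, mul_one_div,
      le_div_iff₀ hm'Q, one_mul] at h2
    exact_mod_cast h2
  have e12 : mm A u c x1 = mm A u c x2 :=
    le_antisymm (hle x2 hx2 hf2 hn2 x1 hx1 hf1 hx12) (hle x1 hx1 hf1 hn1 x2 hx2 hf2 hx21)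
  -- the group of `x1` is critical
  have hcr1 : Cr A u c x1 := by
    have h1 := hone x1 hx1 hf1
    have hb : ∀ z ∈ G.filter (fun z => z ≤ x1 ⊔ u), mm A u c x1 ≤ DD A u c z := by
      intro z hz
      rw [Finset.mem_filter] at hz
      rw [e12]
      apply mm_le_DD hA hu hc hcu hx2A hx2u (hG z hz.1).1 (hG z hz.1).2
      rw [grp_eq hA hu (hG z hz.1).1 (hG z hz.1).2 hx1A hx1u hz.2]
      exact hx21
    have hm : 0 < mm A u c x1 := by
      unfold mm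
      rw [Finset.card_pos]
      exact ⟨x1 ⊔ c, Finset.mem_image.mpr ⟨x1, Finset.mem_filter.mpr ⟨hx1A, hx1u,
        le_sup_left⟩, rfl⟩⟩
    have hmQ : (0 : ℚ) < (mm A u c x1 : ℚ) := by exact_mod_cast hm
    have hsum : ∑ z ∈ G.filter (fun z => z ≤ x1 ⊔ u), (1 : ℚ) / (mm A u c x1 : ℚ) = 1 := by
      rw [Finset.sum_const, nsmul_eq_mul, hcount x1 hx1 hn1, mul_one_div_cancel hmQ.ne']
    have heq : ∀ z ∈ G.filter (fun z => z ≤ x1 ⊔ u), DD A u c z = mm A u c x1 := by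
      have h2 : ∀ z ∈ G.filter (fun z => z ≤ x1 ⊔ u),
          (1 : ℚ) / (DD A u c z : ℚ) ≤ 1 / (mm A u c x1 : ℚ) := fun z hz =>
        one_div_le_one_div_of_le hmQ (by exact_mod_cast hb z hz)
      have h3 := (Finset.sum_eq_sum_iff_of_le h2).mp (by rw [h1, hsum])
      intro z hz
      have h4 := h3 z hz
      have h5 := hDpos z (Finset.mem_filter.mp hz).1
      have h6 : (DD A u c z : ℚ) = (mm A u c x1 : ℚ) := by
        rw [div_eq_div_iff h5.ne' hmQ.ne'] at h4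
        linarith
      exact_mod_cast h6
    intro z hz hzu hzx
    have hzK : ¬ z ≤ K := by
      intro h
      apply hn1 z hz hzu h
      rw [grp_eq hA hu hz hzu hx1A hx1u hzx]
      exact le_sup_left
    obtain ⟨g, hg, e⟩ := hall z hz hzu hzK
    rw [← DD_congr e]
    apply heq
    refine Finset.mem_filter.mpr ⟨hg, ?_⟩
    have h2 : g ≤ z ⊔ c := e ▸ le_sup_left
    exact h2.trans (sup_le hzx (hcu.trans le_sup_right))
  rcases hcr with hcr | hcr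
  · have hx1y0 : ¬ x1 ≤ y0 ⊔ u := hn1 y0 hy0 hy0u hy0K
    have hy0x1 : ¬ y0 ≤ x1 ⊔ u := by
      intro h
      apply hx1y0
      rw [grp_eq hA hu hy0 hy0u hx1A hx1u h]
      exact le_sup_left
    have h1 := mm_le_DD hA hu hc hcu hx1A hx1u hy0 hy0u hx1y0
    have h2 := mm_le_DD hA hu hc hcu hy0 hy0u hx1A hx1u hy0x1
    have h3 := hcr y0 hy0 hy0u le_sup_left
    have h4 := hcr1 x1 hx1A hx1u le_sup_left
    obtain ⟨w, hw, hwu, hwx, hwK⟩ := meets_of_le hA hu hc hcu hx1A hx1u hy0 hy0u hx1y0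
      (by omega) hK hy0K
    apply hn1 w hw hwu hwK
    rw [grp_eq hA hu hw hwu hx1A hx1u hwx]
    exact le_sup_left
  · exact hcr x1 hx1A hx1u hcr1

/-- **Level 2 with a free excluded plane**, for all rows at once. -/
theorem level2F {A : Finset L} {u c K y0 : L}
    (hA : ∀ a ∈ A, IsAtom a) (hrA : rk (A.sup id) = 4) (hu : rk u = 2) (hc : c ∈ A)
    (hcu : c ≤ u) (hK : K ∈ HP A u c)
    (hy0 : y0 ∈ A) (hy0u : ¬ y0 ≤ u) (hy0K : y0 ≤ K)
    (hcr : Cr A u c y0 ∨ ∀ w ∈ A, ¬ w ≤ u → ¬ Cr A u c w) :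
    ∃ HR : L → L, (∀ x ∈ A, ¬ x ≤ u → ¬ x ≤ K →
        rk (HR x) = 3 ∧ x ⊔ c ≤ HR x ∧ ¬ u ≤ HR x ∧ HR x ≠ K ∧
        ∃ z ∈ A, z ≤ HR x ∧ ¬ z ≤ x ⊔ c) ∧
      (∀ x ∈ A, ¬ x ≤ u → ¬ x ≤ K → ∀ y ∈ A, ¬ y ≤ u → ¬ y ≤ K →
        HR x = HR y → x ⊔ c = y ⊔ c) ∧
      (∀ x y, x ⊔ c = y ⊔ c → HR x = HR y) := by
  classical
  have hcK : c ≤ K := (mem_HP.mp hK).2.1
  have hrep : ∀ k : L, ∃ x : L, (∃ y ∈ A, ¬ y ≤ u ∧ ¬ y ≤ K ∧ y ⊔ c = k) →
      x ∈ A ∧ ¬ x ≤ u ∧ ¬ x ≤ K ∧ x ⊔ c = k := by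
    intro k
    by_cases h : ∃ y ∈ A, ¬ y ≤ u ∧ ¬ y ≤ K ∧ y ⊔ c = k
    · obtain ⟨y, h1, h2, h3, h4⟩ := h
      exact ⟨y, fun _ => ⟨h1, h2, h3, h4⟩⟩
    · exact ⟨k, fun h' => absurd h' h⟩
  choose ρ hρ using hrep
  set Z : Finset L := A.filter (fun x => ¬ x ≤ u ∧ ¬ x ≤ K) with hZ
  have hmZ : ∀ x, x ∈ Z ↔ x ∈ A ∧ ¬ x ≤ u ∧ ¬ x ≤ K := fun x => by simp [hZ]
  set G : Finset L := Z.image (fun x => ρ (x ⊔ c)) with hGdef
  have hmG : ∀ x ∈ G, x ∈ A ∧ ¬ x ≤ u ∧ ¬ x ≤ K ∧ ρ (x ⊔ c) = x := by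
    intro x hx
    obtain ⟨y, hy, rfl⟩ := Finset.mem_image.mp hx
    obtain ⟨h1, h2, h3⟩ := (hmZ y).mp hy
    have h4 := hρ (y ⊔ c) ⟨y, h1, h2, h3, rfl⟩
    exact ⟨h4.1, h4.2.1, h4.2.2.1, by rw [h4.2.2.2]⟩
  have key : ∀ x ∈ A, ¬ x ≤ u → ¬ x ≤ K → ρ (x ⊔ c) ∈ G ∧ ρ (x ⊔ c) ⊔ c = x ⊔ c := by
    intro x h1 h2 h3
    refine ⟨Finset.mem_image.mpr ⟨x, (hmZ x).mpr ⟨h1, h2, h3⟩, rfl⟩, ?_⟩
    exact (hρ (x ⊔ c) ⟨x, h1, h2, h3, rfl⟩).2.2.2
  have hG : ∀ x ∈ G, x ∈ A ∧ ¬ x ≤ u := fun x hx => ⟨(hmG x hx).1, (hmG x hx).2.1⟩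
  obtain ⟨F, hFinj, hF⟩ := hall_of_kernel (X := G) (Y := L)
    (fun x => ((HP A u c).erase K).filter (fun H => x.1 ≤ H)) (by
      intro f hf x
      have h1 := kernelF (G := G) hA hrA hu hc hcu hG
        (fun x hx y hy e => by rw [← (hmG x hx).2.2.2, ← (hmG y hy).2.2.2, e])
        (fun x h1 h2 h3 => ⟨ρ (x ⊔ c), (key x h1 h2 h3).1, (key x h1 h2 h3).2⟩)
        (fun x hx => (hmG x hx).2.2.1) hK hy0 hy0u hy0K hcr
        (fun z => if hz : z ∈ G then f ⟨z, hz⟩ else 0) (by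
          intro H hH hne
          have h2 := hf H
          rw [← h2, Finset.sum_filter, ← Finset.sum_coe_sort G]
          apply Finset.sum_congr rfl
          intro z _
          by_cases hzH : z.1 ≤ H
          · rw [if_pos hzH, if_pos]
            · simp [z.2]
            · rw [Finset.mem_filter, Finset.mem_erase]
              exact ⟨⟨hne, hH⟩, hzH⟩
          · rw [if_neg hzH, if_neg]
            rw [Finset.mem_filter]
            exact fun h => hzH h.2) x.1 x.2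
      simpa using h1)
  set H : L → L := fun x => if hx : x ∈ G then F ⟨x, hx⟩ else x with hH
  have hHx : ∀ x (hx : x ∈ G), H x = F ⟨x, hx⟩ := fun x hx => by simp [hH, hx]
  refine ⟨fun x => H (ρ (x ⊔ c)), ?_, ?_, ?_⟩
  · intro x g1 g2 g3
    obtain ⟨h4, h5⟩ := key x g1 g2 g3
    have h1 := hF ⟨_, h4⟩
    rw [← hHx _ h4, Finset.mem_filter, Finset.mem_erase] at h1
    obtain ⟨⟨h2, h3⟩, h6⟩ := h1
    obtain ⟨k1, k2, k3, y, hy, z, hz, k4⟩ := mem_HP.mp h3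
    have h7 : x ⊔ c ≤ H (ρ (x ⊔ c)) := by
      have h8 : ρ (x ⊔ c) ⊔ c ≤ H (ρ (x ⊔ c)) := sup_le h6 k2
      exact h5.symm.le.trans h8
    refine ⟨k1, h7, k3, h2, ?_⟩
    by_contra hcon
    push Not at hcon
    have h9 : y ≤ x ⊔ c := hcon y hy (by rw [k4]; exact le_sup_right.trans le_sup_left)
    have h10 : z ≤ x ⊔ c := hcon z hz (by rw [k4]; exact le_sup_right)
    have h11 : H (ρ (x ⊔ c)) ≤ x ⊔ c := by
      rw [k4]
      exact sup_le (sup_le le_sup_right h9) h10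
    have h12 := rk_mono h11
    rw [k1, sup_comm, rk_cy hu (hA c hc) hcu (hA x g1) g2] at h12
    omega
  · intro x h1 h2 h3 y h1' h2' h3' e
    obtain ⟨h4, h5⟩ := key x h1 h2 h3
    obtain ⟨h4', h5'⟩ := key y h1' h2' h3'
    have e' : F ⟨_, h4⟩ = F ⟨_, h4'⟩ := by
      rw [← hHx _ h4, ← hHx _ h4']
      exact e
    have h6 := congrArg Subtype.val (hFinj e')
    rw [← h5, ← h5']
    exact congrArg (· ⊔ c) h6
  · intro x y e
    show H (ρ (x ⊔ c)) = H (ρ (y ⊔ c))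
    rw [e]

end Pool.Agent.Helper29.RC
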