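import Pool.Agent.Helper29.RC.Ins
import Pool.Agent.Helper15.RC.Level1F

/-!
# Rank four data when all rows over a longest line are long
-/

set_option autoImplicit false
set_option linter.unusedSectionVars false

namespace Pool.Agent.Helper29.RC

open Pool.Agent.Helper28.BPack Pool.Agent.Helper61.Motz Pool.Agent.Helper28.Level2
  Pool.Agent.Helper80.BP Pool.Agent.Helper38.Thick

variable {L : Type} [Lattice L] [BoundedOrder L] [Finite L] [IsUpperModularLattice L]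
  [DecidableEq L] [DecidableRel (α := L) (· ≤ ·)]

/-- **(F2)** Let `u` be a line with the largest number of points of `A`, and let every line
through a point of `u` and a point off `u` have at least `|u| / 2 + 2` points. -/
theorem crit4_of_longrows {A : Finset L} {u : L} (hA : ∀ a ∈ A, IsAtom a)
    (hrA : rk (A.sup id) = 4) (hu : rk u = 2)
    (hmax : ∀ k, rk k = 2 → (A.filter (· ≤ k)).card ≤ (A.filter (· ≤ u)).card)
    (hbig : ∀ x ∈ A, ¬ x ≤ u → ∀ c ∈ A, c ≤ u →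
      (A.filter (· ≤ u)).card + 4 ≤ 2 * (A.filter (· ≤ x ⊔ c)).card) : Crit4 A := by
  classical
  -- two points of `u`
  have hU : 2 ≤ (A.filter (· ≤ u)).card := by
    obtain ⟨a, ha, -⟩ := exists_off (k := (⊥ : L)) hrA (by rw [rk_bot]; omega)
    obtain ⟨b, hb, hba⟩ := exists_off (k := a) hrA (by rw [rk_atom (hA a ha)]; omega)
    have hab : a ≠ b := fun h => hba (h ▸ le_rfl)
    have h1 := hmax (a ⊔ b) (rk_line (hA a ha) (hA b hb) hab)
    have h2 : ({a, b} : Finset L) ⊆ A.filter (· ≤ a ⊔ b) := by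
      intro z hz
      rw [Finset.mem_insert, Finset.mem_singleton] at hz
      rw [Finset.mem_filter]
      rcases hz with rfl | rfl
      · exact ⟨ha, le_sup_left⟩
      · exact ⟨hb, le_sup_right⟩
    have h3 := Finset.card_le_card h2
    rw [Finset.card_pair hab] at h3
    omega
  obtain ⟨b1, hb1, b2, hb2, hb12⟩ := Finset.one_lt_card.mp (by omega :
    1 < (A.filter (· ≤ u)).card)
  rw [Finset.mem_filter] at hb1 hb2
  obtain ⟨r1, r2, y, z, hr1, hr2, h4, hyb, hyz⟩ := frameF (b1 := b1) (b2 := b2) hA hrA hu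
  -- the zero rows
  have hpl : ∀ c ∈ A, c ≤ u → rk (c ⊔ y c ⊔ z c) = 3 ∧ ¬ u ≤ c ⊔ y c ⊔ z c := by
    intro c hc hcu
    obtain ⟨k1, k2, k3, -⟩ := hyz c
    have hau : ¬ y c ≤ u := by
      intro h1
      have h2 := rk_sup_atom_le (x := u) (hA _ k2)
      rw [sup_eq_left.mpr h1] at k3
      omega
    have hbau : ¬ z c ≤ y c ⊔ u := by
      intro h1
      rw [sup_comm u (y c), sup_eq_left.mpr h1, rk_uy hu (hA _ k1) hau] at k3
      omega
    exact rk_cyx hu (hA c hc) hcu (hA _ k1) hau (hA _ k2) hbau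
  obtain ⟨m, hm, hminj⟩ := Pool.Agent.Helper15.RC.level1F (A := A)
    (R := A.filter (fun x => ¬ x ≤ u ∧ ¬ x ≤ r1 ⊔ r2)) (u := u) (b1 := b1) (b2 := b2)
    (ZF A u y z) hA hu hb1.1 hb1.2 hb2.1 hb2.2 hb12 (fun k hk _ => hmax k hk)
    (fun x hx => by
      rw [Finset.mem_filter] at hx
      exact ⟨hx.1, hx.2.1⟩)
    (by
      intro x hx x' hx' c hc hcu hle hz hz'
      rw [Finset.mem_filter] at hx hx'
      obtain ⟨hxA, hxu, -⟩ := hx
      obtain ⟨hxA', hxu', -⟩ := hx'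
      rw [ZF_iff hA hu hxA hxu hc hcu] at hz
      rw [ZF_iff hA hu hxA' hxu' hc hcu] at hz'
      obtain ⟨l1, l2⟩ := hpl c hc hcu
      have h5 := le_cy hu (hA c hc) hcu (hA x hxA) hxu (hA x' hxA') hle l1
        (le_sup_left.trans le_sup_left) l2 hz hz'
      exact (row_eq hA hu hc hcu hxA' hxu' hxA hxu h5).symm)
    (by
      rintro x hx ⟨hz, hz'⟩
      rw [Finset.mem_filter] at hx
      obtain ⟨hxA, hxu, hxv⟩ := hx
      rw [ZF_iff hA hu hxA hxu hb1.1 hb1.2, (hyb b1 (Or.inl rfl)).1, (hyb b1 (Or.inl rfl)).2]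
        at hz
      rw [ZF_iff hA hu hxA hxu hb2.1 hb2.2, (hyb b2 (Or.inr rfl)).1, (hyb b2 (Or.inr rfl)).2]
        at hz'
      have hr1u : ¬ r1 ≤ u := by
        intro h1
        have h2 := rk_sup_atom_le (x := u) (hA _ hr2)
        rw [sup_eq_left.mpr h1] at h4
        omega
      have hr21 : ¬ r2 ≤ r1 ⊔ u := by
        intro h1
        rw [sup_comm u r1, sup_eq_left.mpr h1, rk_uy hu (hA _ hr1) hr1u] at h4
        omega
      have hr12 : r1 ≠ r2 := fun h => hr21 (h ▸ le_sup_left)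
      have hv : rk (r1 ⊔ r2) = 2 := rk_line (hA _ hr1) (hA _ hr2) hr12
      obtain ⟨p1, p2⟩ := rk_cyx hu (hA b1 hb1.1) hb1.2 (hA _ hr1) hr1u (hA _ hr2) hr21
      obtain ⟨q1, q2⟩ := rk_cyx hu (hA b2 hb2.1) hb2.2 (hA _ hr1) hr1u (hA _ hr2) hr21
      have hr3 : rk (r1 ⊔ r2 ⊔ x) = 3 := by rw [rk_sup_atom (hA x hxA) hxv, hv]
      have e1 : r1 ⊔ r2 ⊔ x = b1 ⊔ r1 ⊔ r2 := eq_of_le_of_rk
        (sup_le (sup_le (le_sup_right.trans le_sup_left) le_sup_right) hz) (by rw [hr3, p1])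
      have e2 : r1 ⊔ r2 ⊔ x = b2 ⊔ r1 ⊔ r2 := eq_of_le_of_rk
        (sup_le (sup_le (le_sup_right.trans le_sup_left) le_sup_right) hz') (by rw [hr3, q1])
      apply p2
      have e3 : b1 ⊔ b2 = u := line_eq (hA _ hb1.1) (hA _ hb2.1) hb12 hb1.2 hb2.2 hu
      rw [← e3]
      refine sup_le (le_sup_left.trans le_sup_left) ?_
      rw [← e1, e2]
      exact le_sup_left.trans le_sup_left)
  exact crit4_aux hA hrA hu hb1.1 hb1.2 hb2.1 hb2.2 hb12 hmax hbig hr1 hr2 h4 hyb hyz hm hminj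

end Pool.Agent.Helper29.RC
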