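import Pool.Agent.Helper29.RC.Level2F
import Pool.Agent.Helper80.BP.VCore

/-!
# One class, and the choice of the frame
-/

set_option autoImplicit false
set_option linter.unusedSectionVars false

namespace Pool.Agent.Helper29.RC

open Pool.Agent.Helper28.BPack Pool.Agent.Helper61.Motz Pool.Agent.Helper28.Level2
  Pool.Agent.Helper80.BP

variable {L : Type} [Lattice L] [BoundedOrder L] [Finite L] [IsUpperModularLattice L]
  [DecidableEq L] [DecidableRel (α := L) (· ≤ ·)]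

/-- **One class.**  If every row has at least `|u| / 2 + 2` points, then every user has class
one. -/
theorem single_class {A R : Finset L} {u v : L} {own : L → Finset L} {cls : L → ℕ}
    (S : SC A R u own cls) (hv : rk v = 2) (huv : rk (u ⊔ v) = 4)
    (hR : ∀ x, x ∈ R ↔ x ∈ A ∧ ¬ x ≤ u ∧ ¬ x ≤ v)
    (hbig : ∀ x ∈ A, ¬ x ≤ u → ∀ c ∈ A, c ≤ u →
      (A.filter (· ≤ u)).card + 4 ≤ 2 * (A.filter (· ≤ x ⊔ c)).card) :
    ∀ x ∈ R, cls x = 1 := by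
  classical
  have hA := S.at_
  have hu := S.ru
  have hrow : ∀ x ∈ A, ¬ x ≤ u → ∀ c ∈ A, c ≤ u → rk (x ⊔ c) = 2 := fun x hx hxu c hc hcu => by
    rw [sup_comm]
    exact rk_cy hu (hA c hc) hcu (hA x hx) hxu
  -- two points of `v` in a plane through `u`
  have hvv : ∀ y ∈ A, ¬ y ≤ u → ∀ p ∈ A, p ≤ v → p ≤ y ⊔ u → ∀ p' ∈ A, p' ≤ v → p' ≤ y ⊔ u →
      p = p' := by
    intro y hy hyu p hp hpv hpy p' hp' hpv' hpy'
    by_contra hne
    have h1 : p ⊔ p' = v := line_eq (hA p hp) (hA p' hp') hne hpv hpv' hv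
    have h2 : u ⊔ v ≤ y ⊔ u := sup_le le_sup_right (h1 ▸ sup_le hpy hpy')
    have h3 := rk_mono h2
    rw [huv, rk_uy hu (hA y hy) hyu] at h3
    omega
  set Y : Finset L := R.filter (fun x => 2 ≤ cls x) with hY
  have hmY : ∀ x, x ∈ Y ↔ x ∈ R ∧ 2 ≤ cls x := fun x => by simp [hY]
  by_contra hcon
  push Not at hcon
  obtain ⟨x0, hx0, hx01⟩ := hcon
  have hx0Y : x0 ∈ Y := (hmY x0).mpr ⟨hx0, by have := S.cls1 x0 hx0; omega⟩
  set P : Finset (Σ _ : L, L) := Y.sigma (fun y => own y) with hP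
  have hmP : ∀ p, p ∈ P ↔ p.1 ∈ Y ∧ p.2 ∈ own p.1 := fun p => by simp [hP]
  have hM : 2 * Y.card ≤ P.card := by
    rw [hP, Finset.card_sigma]
    calc 2 * Y.card = ∑ y ∈ Y, 2 := by rw [Finset.sum_const, smul_eq_mul, mul_comm]
      _ ≤ _ := Finset.sum_le_sum fun y hy => by
        have h1 := (hmY y).mp hy
        exact h1.2.trans (S.lo y h1.1)
  set s := (A.filter (· ≤ u)).card with hs
  set tv : (Σ _ : L, L) → ℕ := fun p => (A.filter (fun z => z ≤ v ∧ z ≤ p.1 ⊔ p.2)).card with htv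
  have htv1 : ∀ p ∈ P, tv p ≤ 1 := by
    intro p hp
    obtain ⟨h1, h2⟩ := (hmP p).mp hp
    have hyR := ((hmY _).mp h1).1
    obtain ⟨hyA, hyu, -⟩ := (hR _).mp hyR
    obtain ⟨hcA, hcu⟩ := S.ownA _ hyR _ h2
    rw [htv]
    simp only
    rw [Finset.card_le_one]
    intro a ha a' ha'
    rw [Finset.mem_filter] at ha ha'
    exact hvv p.1 hyA hyu a ha.1 ha.2.1 (ha.2.2.trans (sup_le_sup_left hcu _)) a' ha'.1 ha'.2.1
      (ha'.2.2.trans (sup_le_sup_left hcu _))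
  -- the users on an owned row
  have hNp : ∀ p ∈ P, s + 2 ≤ 2 * (Y.filter (fun z => z ≤ p.1 ⊔ p.2)).card + 2 * tv p := by
    intro p hp
    obtain ⟨h1, h2⟩ := (hmP p).mp hp
    have hyR := ((hmY _).mp h1).1
    obtain ⟨hyA, hyu, -⟩ := (hR _).mp hyR
    obtain ⟨hcA, hcu⟩ := S.ownA _ hyR _ h2
    have h3 : A.filter (· ≤ p.1 ⊔ p.2) ⊆ insert p.2
        ((A.filter (fun z => z ≤ v ∧ z ≤ p.1 ⊔ p.2)) ∪
          (Y.filter (fun z => z ≤ p.1 ⊔ p.2))) := by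
      intro z hz
      rw [Finset.mem_filter] at hz
      obtain ⟨hzA, hzk⟩ := hz
      rw [Finset.mem_insert, Finset.mem_union, Finset.mem_filter, Finset.mem_filter]
      by_cases hzu : z ≤ u
      · left
        by_contra hne
        have h4 : z ⊔ p.2 = p.1 ⊔ p.2 := line_eq (hA z hzA) (hA _ hcA) hne hzk le_sup_right
          (hrow _ hyA hyu _ hcA hcu)
        have h5 : p.1 ≤ z ⊔ p.2 := h4 ▸ le_sup_left
        exact hyu (h5.trans (sup_le hzu hcu))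
      · right
        by_cases hzv : z ≤ v
        · exact Or.inl ⟨hzA, hzv, hzk⟩
        · right
          have hzR : z ∈ R := (hR z).mpr ⟨hzA, hzu, hzv⟩
          refine ⟨(hmY z).mpr ⟨hzR, ?_⟩, hzk⟩
          exact ((hmY _).mp h1).2.trans (S.low _ hyR _ h2 z hzR hzk)
    have h4 := Finset.card_le_card h3
    have h5 := Finset.card_insert_le p.2 ((A.filter (fun z => z ≤ v ∧ z ≤ p.1 ⊔ p.2)) ∪
          (Y.filter (fun z => z ≤ p.1 ⊔ p.2)))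
    have h6 := Finset.card_union_le (A.filter (fun z => z ≤ v ∧ z ≤ p.1 ⊔ p.2))
          (Y.filter (fun z => z ≤ p.1 ⊔ p.2))
    have h7 := hbig _ hyA hyu _ hcA hcu
    have h8 : tv p = (A.filter (fun z => z ≤ v ∧ z ≤ p.1 ⊔ p.2)).card := rfl
    omega
  -- double count
  have hdc : ∑ p ∈ P, (Y.filter (fun z => z ≤ p.1 ⊔ p.2)).card ≤ s * Y.card := by
    have h1 : ∑ p ∈ P, (Y.filter (fun z => z ≤ p.1 ⊔ p.2)).card =
        ∑ z ∈ Y, (P.filter (fun p => z ≤ p.1 ⊔ p.2)).card := by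
      have := Finset.sum_card_bipartiteAbove_eq_sum_card_bipartiteBelow
        (s := P) (t := Y) (fun (p : Σ _ : L, L) z => z ≤ p.1 ⊔ p.2)
      exact this
    rw [h1]
    have h2 : ∀ z ∈ Y, (P.filter (fun p => z ≤ p.1 ⊔ p.2)).card ≤ s := by
      intro z hz
      have hzR := ((hmY _).mp hz).1
      obtain ⟨hzA, hzu, -⟩ := (hR _).mp hzR
      apply Finset.card_le_card_of_injOn (fun p : (Σ _ : L, L) => p.2)
      · intro p hp
        rw [Finset.mem_coe, Finset.mem_filter] at hp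
        obtain ⟨h3, h4⟩ := (hmP p).mp hp.1
        have h5 := S.ownA _ ((hmY _).mp h3).1 _ h4
        exact Finset.mem_filter.mpr h5
      · intro p hp q hq e
        rw [Finset.mem_coe, Finset.mem_filter] at hp hq
        have e' : p.2 = q.2 := e
        obtain ⟨⟨h3, h4⟩, h5⟩ := And.intro ((hmP p).mp hp.1) hp.2
        obtain ⟨⟨k3, k4⟩, k5⟩ := And.intro ((hmP q).mp hq.1) hq.2
        rw [← e'] at k4 k5
        have hpR := ((hmY _).mp h3).1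
        have hqR := ((hmY _).mp k3).1
        obtain ⟨hpA, hpu, -⟩ := (hR _).mp hpR
        obtain ⟨hqA, hqu, -⟩ := (hR _).mp hqR
        obtain ⟨hcA, hcu⟩ := S.ownA _ hpR _ h4
        have e1 := row_eq hA hu hcA hcu hzA hzu hpA hpu h5
        have e2 := row_eq hA hu hcA hcu hzA hzu hqA hqu k5
        have e3 := S.uniq _ hpR _ hqR _ h4 k4 (e1.symm.trans e2)
        exact Sigma.ext e3 (heq_of_eq e')
    calc ∑ z ∈ Y, (P.filter (fun p => z ≤ p.1 ⊔ p.2)).card ≤ ∑ z ∈ Y, s := Finset.sum_le_sum h2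
      _ = s * Y.card := by rw [Finset.sum_const, smul_eq_mul, mul_comm]
  have hsumt : P.card ≤ ∑ p ∈ P, tv p := by
    have h1 : ∑ p ∈ P, (s + 2) ≤
        ∑ p ∈ P, (2 * (Y.filter (fun z => z ≤ p.1 ⊔ p.2)).card + 2 * tv p) :=
      Finset.sum_le_sum hNp
    rw [Finset.sum_const, smul_eq_mul, Finset.sum_add_distrib, ← Finset.mul_sum,
      ← Finset.mul_sum] at h1
    have h2 : s * (2 * Y.card) ≤ s * P.card := Nat.mul_le_mul_left s hM
    nlinarith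
  have hall : ∀ p ∈ P, tv p = 1 := by
    have h1 : ∑ p ∈ P, tv p = ∑ p ∈ P, 1 := by
      apply le_antisymm (Finset.sum_le_sum htv1)
      simpa using hsumt
    exact (Finset.sum_eq_sum_iff_of_le htv1).mp h1
  -- the owner `x0` of two rows
  have hx0R := hx0
  obtain ⟨hxA, hxu, hxv⟩ := (hR x0).mp hx0R
  have hcard : 1 < (own x0).card := by
    have h1 := ((hmY x0).mp hx0Y).2
    have h2 := S.lo x0 hx0R
    omega
  obtain ⟨c, hc, c', hc', hne⟩ := Finset.one_lt_card.mp hcard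
  obtain ⟨hcA, hcu⟩ := S.ownA _ hx0R _ hc
  obtain ⟨hcA', hcu'⟩ := S.ownA _ hx0R _ hc'
  have h1 := hall ⟨x0, c⟩ ((hmP _).mpr ⟨hx0Y, hc⟩)
  have h2 := hall ⟨x0, c'⟩ ((hmP _).mpr ⟨hx0Y, hc'⟩)
  have h3 : (A.filter (fun z => z ≤ v ∧ z ≤ x0 ⊔ c)).Nonempty := by
    rw [← Finset.card_pos]
    have : (A.filter (fun z => z ≤ v ∧ z ≤ x0 ⊔ c)).card = 1 := h1
    omega
  have h4 : (A.filter (fun z => z ≤ v ∧ z ≤ x0 ⊔ c')).Nonempty := by
    rw [← Finset.card_pos]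
    have : (A.filter (fun z => z ≤ v ∧ z ≤ x0 ⊔ c')).card = 1 := h2
    omega
  obtain ⟨p, hp⟩ := h3
  obtain ⟨p', hp'⟩ := h4
  rw [Finset.mem_filter] at hp hp'
  obtain ⟨hpA, hpv, hpk⟩ := hp
  obtain ⟨hpA', hpv', hpk'⟩ := hp'
  have e := hvv x0 hxA hxu p hpA hpv (hpk.trans (sup_le_sup_left hcu _)) p' hpA' hpv'
    (hpk'.trans (sup_le_sup_left hcu' _))
  rw [← e] at hpk'
  have hxp : x0 ≠ p := fun h => hxv (h ▸ hpv)
  have e1 : x0 ⊔ p = x0 ⊔ c := line_eq (hA _ hxA) (hA _ hpA) hxp le_sup_left hpk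
    (hrow _ hxA hxu _ hcA hcu)
  have e2 : x0 ⊔ p = x0 ⊔ c' := line_eq (hA _ hxA) (hA _ hpA) hxp le_sup_left hpk'
    (hrow _ hxA hxu _ hcA' hcu')
  have e3 : c ⊔ c' = x0 ⊔ c := line_eq (hA _ hcA) (hA _ hcA') hne le_sup_right
    (by rw [← e1, e2]; exact le_sup_right) (hrow _ hxA hxu _ hcA hcu)
  have h5 : x0 ≤ c ⊔ c' := e3 ▸ le_sup_left
  exact hxu (h5.trans (sup_le hcu hcu'))

/-- An atom off a flat of small rank. -/
theorem exists_off {A : Finset L} (hrA : rk (A.sup id) = 4) {k : L} (hk : rk k ≤ 3) :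
    ∃ y ∈ A, ¬ y ≤ k := by
  by_contra hcon
  push Not at hcon
  have h6 : A.sup id ≤ k := Finset.sup_le hcon
  have h7 := rk_mono h6
  omega

/-- **The frame.**  The excluded plane of the colour `c` is `c ⊔ y c ⊔ z c`. -/
theorem frameF {A : Finset L} {u : L} (hA : ∀ a ∈ A, IsAtom a) (hrA : rk (A.sup id) = 4)
    (hu : rk u = 2) {b1 b2 : L} :
    ∃ (r1 r2 : L) (y z : L → L), r1 ∈ A ∧ r2 ∈ A ∧ rk (u ⊔ r1 ⊔ r2) = 4 ∧
      (∀ b, b = b1 ∨ b = b2 → y b = r1 ∧ z b = r2) ∧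
      ∀ c, y c ∈ A ∧ z c ∈ A ∧ rk (u ⊔ y c ⊔ z c) = 4 ∧
        (Cr A u c (y c) ∨ Cr A u c (z c) ∨ ∀ w ∈ A, ¬ w ≤ u → ¬ Cr A u c w) := by
  classical
  have hcr : ∀ c, ∃ y ∈ A, ¬ y ≤ u ∧ (Cr A u c y ∨ ∀ w ∈ A, ¬ w ≤ u → ¬ Cr A u c w) := by
    intro c
    by_cases h : ∃ w ∈ A, ¬ w ≤ u ∧ Cr A u c w
    · obtain ⟨w, h1, h2, h3⟩ := h
      exact ⟨w, h1, h2, Or.inl h3⟩
    · obtain ⟨w, h1, h2⟩ := exists_off (k := u) hrA (by omega)
      push Not at h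
      exact ⟨w, h1, h2, Or.inr h⟩
  have hr4 : ∀ y ∈ A, ¬ y ≤ u → ∀ z ∈ A, ¬ z ≤ y ⊔ u → rk (u ⊔ y ⊔ z) = 4 := by
    intro y hy hyu z hz hzy
    rw [sup_comm u y, rk_sup_atom (hA z hz) hzy, rk_uy hu (hA y hy) hyu]
  obtain ⟨r1, hr1, hr1u, hr1c⟩ := hcr b1
  have h2 : ∃ r2 ∈ A, ¬ r2 ≤ r1 ⊔ u ∧
      (Cr A u b2 r1 ∨ Cr A u b2 r2 ∨ ∀ w ∈ A, ¬ w ≤ u → ¬ Cr A u b2 w) := by
    obtain ⟨w, hw, hwu, hwc⟩ := hcr b2
    obtain ⟨t, ht, htr⟩ := exists_off (k := r1 ⊔ u) hrA (by rw [rk_uy hu (hA r1 hr1) hr1u])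
    rcases hwc with hwc | hwc
    · by_cases h : w ≤ r1 ⊔ u
      · refine ⟨t, ht, htr, Or.inl ?_⟩
        refine Cr_congr hA hu hr1 hr1u hw hwu ?_ hwc
        rw [grp_eq hA hu hw hwu hr1 hr1u h]
        exact le_sup_left
      · exact ⟨w, hw, h, Or.inr (Or.inl hwc)⟩
    · exact ⟨t, ht, htr, Or.inr (Or.inr hwc)⟩
  obtain ⟨r2, hr2, hr2u, hr2c⟩ := h2
  have hex : ∀ c, ∃ y z, (c = b1 ∨ c = b2 → y = r1 ∧ z = r2) ∧ y ∈ A ∧ z ∈ A ∧
      rk (u ⊔ y ⊔ z) = 4 ∧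
      (Cr A u c y ∨ Cr A u c z ∨ ∀ w ∈ A, ¬ w ≤ u → ¬ Cr A u c w) := by
    intro c
    by_cases h1 : c = b1
    · subst h1
      refine ⟨r1, r2, fun _ => ⟨rfl, rfl⟩, hr1, hr2, hr4 r1 hr1 hr1u r2 hr2 hr2u, ?_⟩
      rcases hr1c with h | h
      · exact Or.inl h
      · exact Or.inr (Or.inr h)
    · by_cases h2 : c = b2
      · subst h2
        exact ⟨r1, r2, fun _ => ⟨rfl, rfl⟩, hr1, hr2, hr4 r1 hr1 hr1u r2 hr2 hr2u, hr2c⟩
      · obtain ⟨y, hy, hyu, hyc⟩ := hcr c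
        obtain ⟨z, hz, hzy⟩ := exists_off (k := y ⊔ u) hrA (by rw [rk_uy hu (hA y hy) hyu])
        refine ⟨y, z, fun h => ?_, hy, hz, hr4 y hy hyu z hz hzy, ?_⟩
        · rcases h with h | h
          · exact absurd h h1
          · exact absurd h h2
        · rcases hyc with h | h
          · exact Or.inl h
          · exact Or.inr (Or.inr h)
  choose y z h1 h2 h3 h4 h5 using hex
  exact ⟨r1, r2, y, z, hr1, hr2, hr4 r1 hr1 hr1u r2 hr2 hr2u, fun b hb => h1 b hb,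
    fun c => ⟨h2 c, h3 c, h4 c, h5 c⟩⟩

end Pool.Agent.Helper29.RC
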