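import Mathlib

/-!
# Two matchings glued at the middle layer
-/

set_option autoImplicit false
set_option linter.unusedSectionVars false

namespace Pool.Agent.Helper29.RC

section

variable {Z G P : Type} [DecidableEq G] [DecidableEq P]

/-- Elements `z` choose different `g z` in `free z`, and the chosen `g z` choose different
`p z` in `pl (g z)`. -/
theorem two_step (free : Z → Finset G) (pl : G → Finset P)
    (h : ∀ (S : Finset Z) (T : Finset G), T ⊆ S.biUnion free →
      S.card + T.card ≤ (S.biUnion free).card + (T.biUnion pl).card) :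
    ∃ (g : Z → G) (p : Z → P), Function.Injective g ∧ Function.Injective p ∧
      (∀ z, g z ∈ free z) ∧ ∀ z, p z ∈ pl (g z) := by
  classical
  let t : Z ⊕ G → Finset (G ⊕ P) := fun a => Sum.elim
    (fun z => (free z).map ⟨Sum.inl, Sum.inl_injective⟩)
    (fun g => insert (Sum.inl g) ((pl g).map ⟨Sum.inr, Sum.inr_injective⟩)) a
  have ht1 : ∀ z, t (Sum.inl z) = (free z).map ⟨Sum.inl, Sum.inl_injective⟩ := fun _ => rfl
  have ht2 : ∀ g, t (Sum.inr g) =
    insert (Sum.inl g) ((pl g).map ⟨Sum.inr, Sum.inr_injective⟩) := fun _ => rfl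
  have hall : ∀ s : Finset (Z ⊕ G), s.card ≤ (s.biUnion t).card := by
    intro s
    set S := s.toLeft with hS
    set T := s.toRight with hT
    have hcard : s.card = S.card + T.card := by
      rw [hS, hT, Finset.card_toLeft_add_card_toRight]
    -- the union contains the lines of `S`, the lines of `T` and the planes of `T`
    have hsub : ((S.biUnion free ∪ T).disjSum (T.biUnion pl)) ⊆ s.biUnion t := by
      intro a ha
      rw [Finset.mem_disjSum] at ha
      rw [Finset.mem_biUnion]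
      rcases ha with ⟨g, hg, rfl⟩ | ⟨p, hp, rfl⟩
      · rcases Finset.mem_union.mp hg with hg | hg
        · obtain ⟨z, hz, hgz⟩ := Finset.mem_biUnion.mp hg
          refine ⟨Sum.inl z, Finset.mem_toLeft.mp hz, ?_⟩
          rw [ht1]
          exact Finset.mem_map.mpr ⟨g, hgz, rfl⟩
        · refine ⟨Sum.inr g, Finset.mem_toRight.mp hg, ?_⟩
          rw [ht2]
          exact Finset.mem_insert_self _ _
      · obtain ⟨g, hg, hpg⟩ := Finset.mem_biUnion.mp hp
        refine ⟨Sum.inr g, Finset.mem_toRight.mp hg, ?_⟩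
        rw [ht2]
        exact Finset.mem_insert_of_mem (Finset.mem_map.mpr ⟨p, hpg, rfl⟩)
    have h1 := Finset.card_le_card hsub
    rw [Finset.card_disjSum] at h1
    -- split `T` into the part inside the lines of `S` and the rest
    have h2 := h S (T ∩ S.biUnion free) Finset.inter_subset_right
    have h3 : (S.biUnion free ∪ T).card + (T ∩ S.biUnion free).card =
        (S.biUnion free).card + T.card := by
      rw [Finset.inter_comm]
      exact Finset.card_union_add_card_inter _ _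
    have h4 : ((T ∩ S.biUnion free).biUnion pl).card ≤ (T.biUnion pl).card :=
      Finset.card_le_card (Finset.biUnion_subset_biUnion_of_subset_left _
        Finset.inter_subset_left)
    omega
  obtain ⟨f, hf, hmem⟩ := (Finset.all_card_le_biUnion_card_iff_exists_injective t).mp hall
  have hz : ∀ z, ∃ g ∈ free z, f (Sum.inl z) = Sum.inl g := by
    intro z
    have h1 := hmem (Sum.inl z)
    rw [ht1] at h1
    obtain ⟨g, hg, hgf⟩ := Finset.mem_map.mp h1
    exact ⟨g, hg, hgf.symm⟩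
  choose g hg hfg using hz
  have hp : ∀ z, ∃ p ∈ pl (g z), f (Sum.inr (g z)) = Sum.inr p := by
    intro z
    have h1 := hmem (Sum.inr (g z))
    rw [ht2] at h1
    rcases Finset.mem_insert.mp h1 with h2 | h2
    · exact absurd (hf (h2.trans (hfg z).symm)) (by simp)
    · obtain ⟨p, hp, hpf⟩ := Finset.mem_map.mp h2
      exact ⟨p, hp, hpf.symm⟩
  choose p hp hfp using hp
  have hginj : Function.Injective g := by
    intro z z' h1
    have h2 : f (Sum.inl z) = f (Sum.inl z') := by rw [hfg, hfg, h1]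
    exact Sum.inl_injective (hf h2)
  refine ⟨g, p, hginj, ?_, hg, hp⟩
  intro z z' h1
  have h2 : f (Sum.inr (g z)) = f (Sum.inr (g z')) := by rw [hfp, hfp, h1]
  exact hginj (Sum.inr_injective (hf h2))

/-- The two step selection when the planes satisfy `K |T| <= |planes of T| ^ 2` and the lines
satisfy `|S| <= |lines of S|` and `|S| ^ 2 <= K |lines of S|`. -/
theorem two_step_grid (free : Z → Finset G) (pl : G → Finset P) (K : ℕ)
    (hpl : ∀ T : Finset G, K * T.card ≤ (T.biUnion pl).card ^ 2)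
    (h1 : ∀ S : Finset Z, S.card ≤ (S.biUnion free).card)
    (h2 : ∀ S : Finset Z, S.card ^ 2 ≤ K * (S.biUnion free).card) :
    ∃ (g : Z → G) (p : Z → P), Function.Injective g ∧ Function.Injective p ∧
      (∀ z, g z ∈ free z) ∧ ∀ z, p z ∈ pl (g z) := by
  apply two_step free pl
  intro S T hT
  set L := (S.biUnion free).card with hL
  have hTL : T.card ≤ L := Finset.card_le_card hT
  set t := T.card with ht
  set N := (T.biUnion pl).card with hN
  set x := S.card with hx
  have a1 : K * t ≤ N ^ 2 := hpl T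
  have a2 : x ≤ L := h1 S
  have a3 : x ^ 2 ≤ K * L := h2 S
  -- `L - t + N >= x`
  by_contra hcon
  push Not at hcon
  -- N < x - (L - t), N ^ 2 L >= K t L >= t x ^ 2
  have b1 : (N : ℤ) < x - (L - t) := by omega
  have b2 : (t : ℤ) * x ^ 2 ≤ N ^ 2 * L := by
    have c1 : (K : ℤ) * t ≤ N ^ 2 := by exact_mod_cast a1
    have c2 : (x : ℤ) ^ 2 ≤ K * L := by exact_mod_cast a3
    have c3 : (0 : ℤ) ≤ t := by positivity
    have c4 : (0 : ℤ) ≤ L := by positivity
    nlinarith
  have d1 : (0 : ℤ) ≤ N := by positivity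
  have d2 : (t : ℤ) ≤ L := by exact_mod_cast hTL
  have d3 : (x : ℤ) ≤ L := by exact_mod_cast a2
  have d4 : (0 : ℤ) ≤ t := by positivity
  -- y := x - (L - t) > N >= 0, y <= t and y L <= t x (concavity), y <= x
  set y : ℤ := x - (L - t) with hy
  have e1 : N ^ 2 + 1 ≤ y ^ 2 := by nlinarith
  have e2 : y ≤ t := by omega
  have e3 : y * L ≤ t * x := by
    have : (t : ℤ) * x - y * L = (L - t) * (L - x) := by rw [hy]; ring
    nlinarith [mul_nonneg (sub_nonneg.mpr d2) (sub_nonneg.mpr d3)]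
  have e4 : 0 < y := by omega
  have e5 : 0 < (L : ℤ) := by
    have : 0 < (t : ℤ) := by omega
    omega
  -- (y L) ^ 2 <= (t x) ^ 2 <= t N ^ 2 L < t y ^ 2 L, so L < t
  have f1 : (y * L) ^ 2 ≤ (t * x) ^ 2 := by
    apply pow_le_pow_left₀ _ e3
    positivity
  have f2 : (t * (x : ℤ)) ^ 2 ≤ t * (N ^ 2 * L) := by nlinarith
  have f3 : (t : ℤ) * (N ^ 2 * L) < t * (y ^ 2 * L) := by
    have : (N : ℤ) ^ 2 * L < y ^ 2 * L := by nlinarith
    have h0 : 0 < (t : ℤ) := by omega
    nlinarith
  have f4 : (y * L) ^ 2 < t * (y ^ 2 * L) := lt_of_le_of_lt (f1.trans f2) f3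
  have f5 : (y ^ 2 * L) * L < (y ^ 2 * L) * t := by nlinarith
  have f6 : (L : ℤ) < t := lt_of_mul_lt_mul_left f5 (by positivity)
  omega

end

/-- Product inequality: if `f` numbers satisfy `n l * n l' >= t` for `l ≠ l'` and `f >= 2`, then
`f ^ 2 t <= (sum n) ^ 2`. -/
theorem sq_sum_of_prod {ι : Type} [DecidableEq ι] (F : Finset ι) (n : ι → ℕ) (t : ℕ)
    (hF : 2 ≤ F.card) (h : ∀ l ∈ F, ∀ l' ∈ F, l ≠ l' → t ≤ n l * n l') :
    F.card ^ 2 * t ≤ (∑ l ∈ F, n l) ^ 2 := by
  -- sum over ordered pairs l ≠ l' of n l n l' >= f (f - 1) t, and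
  -- (sum n)^2 >= f / (f - 1) * that sum
  have h1 : F.card * (F.card - 1) * t ≤ ∑ l ∈ F, ∑ l' ∈ F.erase l, n l * n l' := by
    have : ∑ l ∈ F, ∑ _l' ∈ F.erase l, t ≤ ∑ l ∈ F, ∑ l' ∈ F.erase l, n l * n l' := by
      apply Finset.sum_le_sum
      intro l hl
      apply Finset.sum_le_sum
      intro l' hl'
      exact h l hl l' (Finset.mem_of_mem_erase hl') (Finset.ne_of_mem_erase hl').symm
    refine le_trans (le_of_eq ?_) this
    rw [Finset.sum_congr rfl (fun l hl => by
      rw [Finset.sum_const, Finset.card_erase_of_mem hl]), Finset.sum_const]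
    simp [mul_assoc]
  have h2 : (∑ l ∈ F, n l) ^ 2 = ∑ l ∈ F, (n l) ^ 2 + ∑ l ∈ F, ∑ l' ∈ F.erase l, n l * n l' := by
    rw [sq, Finset.sum_mul_sum, ← Finset.sum_add_distrib]
    apply Finset.sum_congr rfl
    intro l hl
    rw [← Finset.add_sum_erase F _ hl, sq]
  have h3 : (∑ l ∈ F, n l) ^ 2 ≤ F.card * ∑ l ∈ F, (n l) ^ 2 := sq_sum_le_card_mul_sum_sq
  obtain ⟨k, hk⟩ : ∃ k, F.card = k + 2 := ⟨F.card - 2, by omega⟩
  rw [hk] at h1 h3 ⊢
  set X := (∑ l ∈ F, n l) ^ 2
  set A := ∑ l ∈ F, (n l) ^ 2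
  set B := ∑ l ∈ F, ∑ l' ∈ F.erase l, n l * n l'
  have h4 : k + 2 - 1 = k + 1 := by omega
  rw [h4] at h1
  -- (k+1) X = (k+2) X - X >= (k+2) X - (k+2) A = (k+2) B
  have h5 : (k + 2) * B ≤ (k + 1) * X := by
    have : (k + 2) * X = (k + 2) * A + (k + 2) * B := by rw [h2]; ring
    nlinarith
  have h6 : (k + 1) * ((k + 2) ^ 2 * t) ≤ (k + 1) * X := by
    calc (k + 1) * ((k + 2) ^ 2 * t) = (k + 2) * ((k + 2) * (k + 1) * t) := by ring
      _ ≤ (k + 2) * B := Nat.mul_le_mul_left _ h1
      _ ≤ (k + 1) * X := h5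
  exact Nat.le_of_mul_le_mul_left h6 (Nat.succ_pos k)

end Pool.Agent.Helper29.RC
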